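import Pool.Agent.Helper21.WD.Stmts

/-!
# T13, row SCP: elements of degree two
-/

set_option autoImplicit false

open Matrix

namespace MT

namespace SCPx

variable {K : Type} [Field K] {n : ℕ}

/-- homogeneous of degree `x` -/
def Hm (s : Fin n → ℤ) (x : ℤ) (A : Matrix (Fin n) (Fin n) K) : Prop :=
  ∀ i j, A i j ≠ 0 → s i - s j = x

theorem hm_iff {s : Fin n → ℤ} {x : ℤ} {A : Matrix (Fin n) (Fin n) K} :
    cmp s x A = A ↔ Hm s x A := by
  constructor
  · intro h i j hij
    by_contra hc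
    apply hij
    rw [← h]
    simp [cmp, hc]
  · intro h
    ext i j
    by_cases hij : A i j = 0
    · simp [cmp, hij]
    · simp [cmp, h i j hij]

theorem Hm.mul {s : Fin n → ℤ} {x y : ℤ} {A B : Matrix (Fin n) (Fin n) K} (hA : Hm s x A)
    (hB : Hm s y B) : Hm s (x + y) (A * B) := by
  intro i j hij
  rw [Matrix.mul_apply] at hij
  obtain ⟨k, _, hk⟩ := Finset.exists_ne_zero_of_sum_ne_zero hij
  have h1 := hA i k (left_ne_zero_of_mul hk)
  have h2 := hB k j (right_ne_zero_of_mul hk)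
  omega

theorem Hm.sub {s : Fin n → ℤ} {x : ℤ} {A B : Matrix (Fin n) (Fin n) K} (hA : Hm s x A)
    (hB : Hm s x B) : Hm s x (A - B) := by
  intro i j hij
  by_cases h : A i j = 0
  · by_cases h' : B i j = 0
    · exact absurd (by simp [h, h']) hij
    · exact hB i j h'
  · exact hA i j h

theorem Hm.brk {s : Fin n → ℤ} {x y z : ℤ} {A B : Matrix (Fin n) (Fin n) K} (hA : Hm s x A)
    (hB : Hm s y B) (hz : x + y = z) : Hm s z (A * B - B * A) := by
  have h1 := hA.mul hB
  have h2 := hB.mul hA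
  rw [hz] at h1
  rw [add_comm, hz] at h2
  exact h1.sub h2

theorem Hm.add {s : Fin n → ℤ} {x : ℤ} {A B : Matrix (Fin n) (Fin n) K} (hA : Hm s x A)
    (hB : Hm s x B) : Hm s x (A + B) := by
  intro i j hij
  by_cases h : A i j = 0
  · by_cases h' : B i j = 0
    · exact absurd (by simp [h, h']) hij
    · exact hB i j h'
  · exact hA i j h

theorem Hm.smul {s : Fin n → ℤ} {x : ℤ} {A : Matrix (Fin n) (Fin n) K} (hA : Hm s x A) (c : K) :
    Hm s x (c • A) := by
  intro i j hij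
  apply hA i j
  intro h
  exact hij (by simp [h])

/-- the block of a matrix -/
def bq (s : Fin n → ℤ) (x y : ℤ) (A : Matrix (Fin n) (Fin n) K) :
    Matrix {j // s j = x} {j // s j = y} K :=
  A.submatrix Subtype.val Subtype.val

theorem bq_add (s : Fin n → ℤ) (x y : ℤ) (A B : Matrix (Fin n) (Fin n) K) :
    bq s x y (A + B) = bq s x y A + bq s x y B := rfl

theorem bq_sub (s : Fin n → ℤ) (x y : ℤ) (A B : Matrix (Fin n) (Fin n) K) :
    bq s x y (A - B) = bq s x y A - bq s x y B := rfl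

theorem bq_smul (s : Fin n → ℤ) (x y : ℤ) (c : K) (A : Matrix (Fin n) (Fin n) K) :
    bq s x y (c • A) = c • bq s x y A := rfl

theorem bq_zero (s : Fin n → ℤ) (x y : ℤ) : bq s x y (0 : Matrix (Fin n) (Fin n) K) = 0 := rfl

theorem bq_mul (s : Fin n → ℤ) (x y z : ℤ) (A B : Matrix (Fin n) (Fin n) K)
    (h : ∀ i k j, s i = x → s j = z → s k ≠ y → A i k = 0 ∨ B k j = 0) :
    bq s x z (A * B) = bq s x y A * bq s y z B := by
  ext i j
  rw [bq, Matrix.submatrix_apply, Matrix.mul_apply, Matrix.mul_apply,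
    ← Fintype.sum_subtype_add_sum_subtype (fun k => s k = y)]
  have : ∑ k : {k // ¬ s k = y}, A i.1 k.1 * B k.1 j.1 = 0 := by
    refine Finset.sum_eq_zero fun k _ => ?_
    rcases h i.1 k.1 j.1 i.2 j.2 k.2 with h | h <;> simp [h]
  rw [this, add_zero]
  rfl

theorem bq_mulVec (s : Fin n → ℤ) (x y : ℤ) (A : Matrix (Fin n) (Fin n) K) (v : Fin n → K)
    (h : ∀ i k, s i = x → s k ≠ y → A i k = 0 ∨ v k = 0) :
    (fun j : {j // s j = x} => (A.mulVec v) j.1) =
      (bq s x y A).mulVec (fun j : {j // s j = y} => v j.1) := by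
  ext i
  rw [Matrix.mulVec, dotProduct, Matrix.mulVec, dotProduct,
    ← Fintype.sum_subtype_add_sum_subtype (fun k => s k = y)]
  have : ∑ k : {k // ¬ s k = y}, A i.1 k.1 * v k.1 = 0 := by
    refine Finset.sum_eq_zero fun k _ => ?_
    rcases h i.1 k.1 i.2 k.2 with h | h <;> simp [h]
  rw [this, add_zero]
  rfl

/-- extension by zero -/
def ex (s : Fin n → ℤ) (x : ℤ) (v : {j // s j = x} → K) : Fin n → K :=
  fun j => if h : s j = x then v ⟨j, h⟩ else 0

theorem ex_supp (s : Fin n → ℤ) (x : ℤ) (v : {j // s j = x} → K) (j : Fin n)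
    (h : ex s x v j ≠ 0) : s j = x := by
  by_contra hc
  exact h (by simp [ex, hc])

theorem ex_val (s : Fin n → ℤ) (x : ℤ) (v : {j // s j = x} → K) :
    (fun j : {j // s j = x} => ex s x v j.1) = v := by
  ext j
  simp [ex, j.2]

theorem ex_res (s : Fin n → ℤ) (x : ℤ) (v : Fin n → K) (h : ∀ j, v j ≠ 0 → s j = x) :
    ex s x (fun j => v j.1) = v := by
  ext j
  by_cases hj : s j = x
  · simp [ex, hj]
  · have : v j = 0 := by
      by_contra hc
      exact hj (h j hc)
    simp [ex, hj, this]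

/-- restriction, as a linear map -/
def rs (s : Fin n → ℤ) (x : ℤ) : (Fin n → K) →ₗ[K] ({j // s j = x} → K) where
  toFun v := fun j => v j.1
  map_add' _ _ := rfl
  map_smul' _ _ := rfl

/-- extension, as a linear map -/
def exl (s : Fin n → ℤ) (x : ℤ) : ({j // s j = x} → K) →ₗ[K] (Fin n → K) where
  toFun v := ex s x v
  map_add' v w := by
    ext j
    by_cases h : s j = x <;> simp [ex, h]
  map_smul' c v := by
    ext j
    by_cases h : s j = x <;> simp [ex, h]

/-- the blocks of the homogeneous elements of degree `x - y` -/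
def BB (s : Fin n → ℤ) (x y : ℤ) (a : Submodule K (Matrix (Fin n) (Fin n) K)) :
    Submodule K (Matrix {j // s j = x} {j // s j = y} K) where
  carrier := {M | ∃ A ∈ a, Hm s (x - y) A ∧ bq s x y A = M}
  add_mem' := by
    rintro _ _ ⟨A, hA, hA', rfl⟩ ⟨B, hB, hB', rfl⟩
    exact ⟨A + B, a.add_mem hA hB, hA'.add hB', rfl⟩
  zero_mem' := ⟨0, a.zero_mem, fun i j h => absurd rfl h, rfl⟩
  smul_mem' := by
    rintro c _ ⟨A, hA, hA', rfl⟩
    exact ⟨c • A, a.smul_mem c hA, hA'.smul c, rfl⟩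

theorem mem_BB {s : Fin n → ℤ} {x y : ℤ} {a : Submodule K (Matrix (Fin n) (Fin n) K)}
    {M : Matrix {j // s j = x} {j // s j = y} K} :
    M ∈ BB s x y a ↔ ∃ A ∈ a, Hm s (x - y) A ∧ bq s x y A = M := Iff.rfl

theorem det_skew_odd {I : Type} [Fintype I] [DecidableEq I] [CharZero K] (Z : Matrix I I K)
    (h : Z.transpose = -Z) (ho : Odd (Fintype.card I)) : Z.det = 0 := by
  have h1 : Z.det = -Z.det := by
    conv_lhs => rw [← Matrix.det_transpose, h, Matrix.det_neg, ho.neg_one_pow]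
    ring
  have h2 : (2 : K) * Z.det = 0 := by linear_combination h1
  rcases mul_eq_zero.1 h2 with h3 | h3
  · exact absurd h3 two_ne_zero
  · exact h3

/-- the generators -/
def Sg (s : Fin n → ℤ) (a : Submodule K (Matrix (Fin n) (Fin n) K)) :
    Set (Matrix {j // s j = 1} {j // s j = 1} K) :=
  {M | ∃ X ∈ a, ∃ Y ∈ a, Hm s 2 X ∧ Hm s (-2) Y ∧ M = bq s 1 1 (X * Y)}

/-- the algebra -/
def GG (s : Fin n → ℤ) (a : Submodule K (Matrix (Fin n) (Fin n) K)) :
    NonUnitalSubalgebra K (Matrix {j // s j = 1} {j // s j = 1} K) :=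
  NonUnitalAlgebra.adjoin K (Sg s a)

variable {s : Fin n → ℤ} {a : Submodule K (Matrix (Fin n) (Fin n) K)}

theorem bd' (hs : ∀ j, |s j| ≤ 1) (j : Fin n) : -1 ≤ s j ∧ s j ≤ 1 := abs_le.1 (hs j)

/-- `[L, G] ≤ G` -/
theorem comm_GG (hb : Brk a)
    {z : Matrix {j // s j = 1} {j // s j = 1} K} (hz : z ∈ BB s 1 1 a)
    {g : Matrix {j // s j = 1} {j // s j = 1} K} (hg : g ∈ GG s a) : z * g - g * z ∈ GG s a := by
  obtain ⟨A, hA, hA', rfl⟩ := hz
  refine NonUnitalAlgebra.adjoin_induction (s := Sg s a)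
    (p := fun g _ => bq s 1 1 A * g - g * bq s 1 1 A ∈ GG s a) ?_ ?_ ?_ ?_ ?_ hg
  · rintro _ ⟨X, hX, Y, hY, hX', hY', rfl⟩
    have e0 : Hm s 0 A := by simpa using hA'
    have e1 : bq s 1 1 (A * (X * Y)) = bq s 1 1 A * bq s 1 1 (X * Y) := by
      refine bq_mul s 1 1 1 A (X * Y) fun i k j hi hj hk => ?_
      left
      by_contra hc
      have := e0 i k hc
      omega
    have e2 : bq s 1 1 (X * Y * A) = bq s 1 1 (X * Y) * bq s 1 1 A := by
      refine bq_mul s 1 1 1 (X * Y) A fun i k j hi hj hk => ?_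
      right
      by_contra hc
      have := e0 k j hc
      omega
    have e3 : bq s 1 1 A * bq s 1 1 (X * Y) - bq s 1 1 (X * Y) * bq s 1 1 A =
        bq s 1 1 ((A * X - X * A) * Y) + bq s 1 1 (X * (A * Y - Y * A)) := by
      rw [← e1, ← e2, ← bq_sub, ← bq_add]
      congr 1
      noncomm_ring
    rw [e3]
    refine add_mem ?_ ?_
    · exact NonUnitalAlgebra.subset_adjoin K
        ⟨_, hb A hA X hX, Y, hY, e0.brk hX' (by norm_num), hY', rfl⟩
    · exact NonUnitalAlgebra.subset_adjoin K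
        ⟨X, hX, _, hb A hA Y hY, hX', e0.brk hY' (by norm_num), rfl⟩
  · intro x y _ _ hx hy
    have : bq s 1 1 A * (x + y) - (x + y) * bq s 1 1 A =
        (bq s 1 1 A * x - x * bq s 1 1 A) + (bq s 1 1 A * y - y * bq s 1 1 A) := by
      noncomm_ring
    rw [this]
    exact add_mem hx hy
  · simp [zero_mem]
  · intro x y hx0 hy0 hx hy
    have : bq s 1 1 A * (x * y) - (x * y) * bq s 1 1 A =
        (bq s 1 1 A * x - x * bq s 1 1 A) * y + x * (bq s 1 1 A * y - y * bq s 1 1 A) := by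
      noncomm_ring
    rw [this]
    exact add_mem (mul_mem hx hy0) (mul_mem hx0 hy)
  · intro c x _ hx
    have : bq s 1 1 A * (c • x) - (c • x) * bq s 1 1 A =
        c • (bq s 1 1 A * x - x * bq s 1 1 A) := by
      rw [Matrix.mul_smul, Matrix.smul_mul, smul_sub]
    rw [this]
    exact SMulMemClass.smul_mem c hx

/-- `G B₀ ≤ B₀` -/
theorem GG_mul (hb : Brk a) (hs : ∀ j, |s j| ≤ 1)
    {g : Matrix {j // s j = 1} {j // s j = 1} K} (hg : g ∈ GG s a)
    {b : Matrix {j // s j = 1} {j // s j = 0} K} (hbb : b ∈ BB s 1 0 a) : g * b ∈ BB s 1 0 a := by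
  revert b
  refine NonUnitalAlgebra.adjoin_induction (s := Sg s a)
    (p := fun g _ => ∀ {b : Matrix {j // s j = 1} {j // s j = 0} K}, b ∈ BB s 1 0 a →
      g * b ∈ BB s 1 0 a) ?_ ?_ ?_ ?_ ?_ hg
  · rintro _ ⟨X, hX, Y, hY, hX', hY', rfl⟩ b ⟨A, hA, hA', rfl⟩
    have e0 : Hm s 1 A := by simpa using hA'
    have hXY : Hm s 0 (X * Y - Y * X) := hX'.brk hY' (by norm_num)
    refine ⟨_, hb _ (hb X hX Y hY) A hA, hXY.brk hA' (by norm_num), ?_⟩
    have e1 : bq s 1 0 ((X * Y - Y * X) * A) = bq s 1 1 (X * Y - Y * X) * bq s 1 0 A := by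
      refine bq_mul s 1 1 0 _ _ fun i k j hi hj hk => ?_
      right
      by_contra hc
      have := e0 k j hc
      omega
    have e2 : bq s 1 0 (A * (X * Y - Y * X)) = 0 := by
      ext i j
      show (A * (X * Y - Y * X)) i.1 j.1 = 0
      rw [Matrix.mul_apply]
      refine Finset.sum_eq_zero fun k _ => ?_
      have hk0 : (X * Y - Y * X) k j.1 = 0 := by
        have hj := j.2
        have h1 : (X * Y) k j.1 = 0 := by
          rw [Matrix.mul_apply]
          refine Finset.sum_eq_zero fun l _ => ?_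
          have : Y l j.1 = 0 := by
            by_contra hc
            have h1 := hY' l j.1 hc
            have h2 := bd' hs l
            omega
          rw [this, mul_zero]
        have h2 : (Y * X) k j.1 = 0 := by
          rw [Matrix.mul_apply]
          refine Finset.sum_eq_zero fun l _ => ?_
          have : X l j.1 = 0 := by
            by_contra hc
            have h1 := hX' l j.1 hc
            have h2 := bd' hs l
            omega
          rw [this, mul_zero]
        rw [Matrix.sub_apply, h1, h2, sub_zero]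
      rw [hk0, mul_zero]
    have e3 : bq s 1 1 (X * Y - Y * X) = bq s 1 1 (X * Y) := by
      rw [bq_sub, sub_eq_self]
      ext i j
      show (Y * X) i.1 j.1 = 0
      rw [Matrix.mul_apply]
      refine Finset.sum_eq_zero fun l _ => ?_
      have : X l j.1 = 0 := by
        by_contra hc
        have h1 := hX' l j.1 hc
        have h2 := bd' hs l
        have hj := j.2
        omega
      rw [this, mul_zero]
    rw [bq_sub, e1, e2, e3, sub_zero]
  · intro x y _ _ hx hy b hb'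
    rw [Matrix.add_mul]
    exact add_mem (hx hb') (hy hb')
  · intro b hb'
    rw [Matrix.zero_mul]
    exact zero_mem _
  · intro x y _ _ hx hy b hb'
    rw [Matrix.mul_assoc]
    exact hx (hy hb')
  · intro c x _ hx b hb'
    rw [Matrix.smul_mul]
    exact Submodule.smul_mem _ c (hx hb')

/-- `B₀' G ≤ B₀'` -/
theorem mul_GG (hb : Brk a) (hs : ∀ j, |s j| ≤ 1)
    {g : Matrix {j // s j = 1} {j // s j = 1} K} (hg : g ∈ GG s a)
    {b : Matrix {j // s j = 0} {j // s j = 1} K} (hbb : b ∈ BB s 0 1 a) : b * g ∈ BB s 0 1 a := by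
  revert b
  refine NonUnitalAlgebra.adjoin_induction (s := Sg s a)
    (p := fun g _ => ∀ {b : Matrix {j // s j = 0} {j // s j = 1} K}, b ∈ BB s 0 1 a →
      b * g ∈ BB s 0 1 a) ?_ ?_ ?_ ?_ ?_ hg
  · rintro _ ⟨X, hX, Y, hY, hX', hY', rfl⟩ b ⟨A, hA, hA', rfl⟩
    have e0 : Hm s (-1) A := by simpa using hA'
    have hXY : Hm s 0 (X * Y - Y * X) := hX'.brk hY' (by norm_num)
    refine ⟨_, hb A hA _ (hb X hX Y hY), hA'.brk hXY (by norm_num), ?_⟩
    have e1 : bq s 0 1 (A * (X * Y - Y * X)) = bq s 0 1 A * bq s 1 1 (X * Y - Y * X) := by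
      refine bq_mul s 0 1 1 _ _ fun i k j hi hj hk => ?_
      left
      by_contra hc
      have := e0 i k hc
      omega
    have e2 : bq s 0 1 ((X * Y - Y * X) * A) = 0 := by
      ext i j
      show ((X * Y - Y * X) * A) i.1 j.1 = 0
      rw [Matrix.mul_apply]
      refine Finset.sum_eq_zero fun k _ => ?_
      have hk0 : (X * Y - Y * X) i.1 k = 0 := by
        have hj := i.2
        have h1 : (X * Y) i.1 k = 0 := by
          rw [Matrix.mul_apply]
          refine Finset.sum_eq_zero fun l _ => ?_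
          have : X i.1 l = 0 := by
            by_contra hc
            have h1 := hX' i.1 l hc
            have h2 := bd' hs l
            omega
          rw [this, zero_mul]
        have h2 : (Y * X) i.1 k = 0 := by
          rw [Matrix.mul_apply]
          refine Finset.sum_eq_zero fun l _ => ?_
          have : Y i.1 l = 0 := by
            by_contra hc
            have h1 := hY' i.1 l hc
            have h2 := bd' hs l
            omega
          rw [this, zero_mul]
        rw [Matrix.sub_apply, h1, h2, sub_zero]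
      rw [hk0, zero_mul]
    have e3 : bq s 1 1 (X * Y - Y * X) = bq s 1 1 (X * Y) := by
      rw [bq_sub, sub_eq_self]
      ext i j
      show (Y * X) i.1 j.1 = 0
      rw [Matrix.mul_apply]
      refine Finset.sum_eq_zero fun l _ => ?_
      have : X l j.1 = 0 := by
        by_contra hc
        have h1 := hX' l j.1 hc
        have h2 := bd' hs l
        have hj := j.2
        omega
      rw [this, mul_zero]
    rw [bq_sub, e1, e2, e3, sub_zero]
  · intro x y _ _ hx hy b hb'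
    rw [Matrix.mul_add]
    exact add_mem (hx hb') (hy hb')
  · intro b hb'
    rw [Matrix.mul_zero]
    exact zero_mem _
  · intro x y _ _ hx hy b hb'
    rw [← Matrix.mul_assoc]
    exact hy (hx hb')
  · intro c x _ hx b hb'
    rw [Matrix.mul_smul]
    exact Submodule.smul_mem _ c (hx hb')

/-- `B₀ B₀' ≤ L` -/
theorem BB_mul (hb : Brk a) (hs : ∀ j, |s j| ≤ 1)
    {b : Matrix {j // s j = 1} {j // s j = 0} K} (hbb : b ∈ BB s 1 0 a)
    {b' : Matrix {j // s j = 0} {j // s j = 1} K} (hbb' : b' ∈ BB s 0 1 a) :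
    b * b' ∈ BB s 1 1 a := by
  obtain ⟨A, hA, hA', rfl⟩ := hbb
  obtain ⟨B, hB, hB', rfl⟩ := hbb'
  have e0 : Hm s 1 A := by simpa using hA'
  have e0' : Hm s (-1) B := by simpa using hB'
  refine ⟨_, hb A hA B hB, e0.brk e0' (by norm_num), ?_⟩
  have e1 : bq s 1 1 (A * B) = bq s 1 0 A * bq s 0 1 B := by
    refine bq_mul s 1 0 1 _ _ fun i k j hi hj hk => ?_
    left
    by_contra hc
    have := e0 i k hc
    omega
  have e2 : bq s 1 1 (B * A) = 0 := by
    ext i j
    show (B * A) i.1 j.1 = 0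
    rw [Matrix.mul_apply]
    refine Finset.sum_eq_zero fun k _ => ?_
    have : A k j.1 = 0 := by
      by_contra hc
      have h1 := e0 k j.1 hc
      have h2 := bd' hs k
      have hj := j.2
      omega
    rw [this, mul_zero]
  rw [bq_sub, e1, e2, sub_zero]

/-- irreducibility of the top piece -/
theorem irr_top (hTPI : ST_TPI) (hb : Brk a) (hi : LIrr a)
    (hc : ∀ A ∈ a, ∀ x : ℤ, cmp s x A ∈ a) (hs : ∀ j, |s j| ≤ 1)
    (U : Submodule K ({j // s j = 1} → K))
    (hU : ∀ z ∈ (BB s 1 1 a : Set (Matrix {j // s j = 1} {j // s j = 1} K)), ∀ v ∈ U,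
      z.mulVec v ∈ U) : U = ⊥ ∨ U = ⊤ := by
  have h := hTPI K n a s 1 hb hi hc (fun j => (bd' hs j).2) (U.map (exl s 1)) ?_ ?_
  · rcases h with h | h
    · left
      rw [Submodule.eq_bot_iff]
      intro v hv
      have h1 : exl s 1 v ∈ U.map (exl s 1) := Submodule.mem_map_of_mem hv
      rw [h, Submodule.mem_bot] at h1
      rw [← ex_val s 1 v]
      ext j
      exact congrFun h1 j.1
    · right
      rw [Submodule.eq_top_iff']
      intro v
      obtain ⟨w, hw, hwv⟩ := Submodule.mem_map.1 (h (ex s 1 v) (ex_supp s 1 v))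
      have : w = v := by
        rw [← ex_val s 1 w, ← ex_val s 1 v]
        exact congrArg (rs s 1) hwv
      exact this ▸ hw
  · rintro _ ⟨v, _, rfl⟩ j hj
    exact ex_supp s 1 v j hj
  · rintro A hA hA' _ ⟨v, hv, rfl⟩
    have hA0 : Hm s 0 A := hm_iff.1 hA'
    refine ⟨(bq s 1 1 A).mulVec v, hU _ ⟨A, hA, by simpa using hA0, rfl⟩ v hv, ?_⟩
    have h1 := bq_mulVec s 1 1 A (ex s 1 v) (fun i k _ hk => by
      right
      by_contra hc
      exact hk (ex_supp s 1 v k hc))
    rw [ex_val] at h1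
    show ex s 1 ((bq s 1 1 A).mulVec v) = A.mulVec (ex s 1 v)
    rw [← h1]
    refine ex_res s 1 _ fun j hj => ?_
    rw [Matrix.mulVec, dotProduct] at hj
    obtain ⟨k, _, hk⟩ := Finset.exists_ne_zero_of_sum_ne_zero hj
    have h2 := hA0 j k (left_ne_zero_of_mul hk)
    have h3 := ex_supp s 1 v k (right_ne_zero_of_mul hk)
    omega

/-- `G ≠ 0` -/
theorem GG_ne [CharZero K] [IsAlgClosed K] (hTRC : ST_TRC) {ψ : Matrix (Fin n) (Fin n) K}
    (hG : GrD 1 ψ s a) (hs : ∀ j, |s j| ≤ 1) {z : Matrix (Fin n) (Fin n) K} (hz : z ∈ a)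
    (hz2 : Hm s 2 z) (hz0 : z ≠ 0) (h : ∀ Y ∈ a, Hm s (-2) Y → bq s 1 1 (z * Y) = 0) : False := by
  apply hz0
  refine hTRC K n ψ a hG.unit hG.brk hG.irr hG.iso z hz fun y hy => ?_
  have hY : cmp s (-2) y ∈ a := hG.comp y hy (-2)
  have hY2 : Hm s (-2) (cmp s (-2) y) := by
    intro i j hij
    by_contra hc
    exact hij (by simp [cmp, hc])
  have h1 := h _ hY hY2
  rw [Matrix.trace]
  refine Finset.sum_eq_zero fun i _ => ?_
  rw [Matrix.diag_apply, Matrix.mul_apply]
  by_cases hi : s i = 1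
  · have h2 := congrFun (congrFun h1 ⟨i, hi⟩) ⟨i, hi⟩
    have h3 : (z * cmp s (-2) y) i i = 0 := h2
    rw [Matrix.mul_apply] at h3
    rw [← h3]
    refine Finset.sum_congr rfl fun k _ => ?_
    by_cases hk : z i k = 0
    · simp [hk]
    · have h4 := hz2 i k hk
      have h5 : s k - s i = -2 := by omega
      simp [cmp, h5]
  · refine Finset.sum_eq_zero fun k _ => ?_
    have : z i k = 0 := by
      by_contra hc
      have h1 := hz2 i k hc
      have h2 := bd' hs i
      have h3 := bd' hs k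
      omega
    rw [this, zero_mul]

/-- no scalars, if the top piece has odd dimension -/
theorem no_scalar [CharZero K] {ψ : Matrix (Fin n) (Fin n) K} (hG : GrD 1 ψ s a)
    (hs : ∀ j, |s j| ≤ 1) (ho : Odd (Fintype.card {j // s j = 1}))
    {X Y : Matrix (Fin n) (Fin n) K} (hY : Y ∈ a) (hY2 : Hm s (-2) Y) {c : K}
    (h : bq s 1 1 (X * Y) = c • (1 : Matrix {j // s j = 1} {j // s j = 1} K)) : c = 0 := by
  have hsk : (ψ * Y).transpose = -(ψ * Y) := by
    have h1 := hG.iso Y hY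
    have h2 := hG.symm
    rw [one_smul] at h2
    rw [Matrix.transpose_mul, h2]
    exact eq_neg_of_add_eq_zero_left h1
  have hsk' : (bq s 1 1 (ψ * Y)).transpose = -bq s 1 1 (ψ * Y) := by
    ext i j
    exact congrFun (congrFun hsk i.1) j.1
  obtain ⟨v, hv0, hv⟩ := Matrix.exists_mulVec_eq_zero_iff.2 (det_skew_odd _ hsk' ho)
  have hrow : ∀ i k, (ψ * Y) i k ≠ 0 → s i = 1 := by
    intro i k hik
    rw [Matrix.mul_apply] at hik
    obtain ⟨l, _, hl⟩ := Finset.exists_ne_zero_of_sum_ne_zero hik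
    have h1 := hG.grad i l (left_ne_zero_of_mul hl)
    have h2 := hY2 l k (right_ne_zero_of_mul hl)
    have h3 := bd' hs l
    have h4 := bd' hs k
    omega
  have h1 : (ψ * Y).mulVec (ex s 1 v) = 0 := by
    ext i
    by_cases hi : s i = 1
    · have h2 := bq_mulVec s 1 1 (ψ * Y) (ex s 1 v) (fun i k _ hk => by
        right
        by_contra hc
        exact hk (ex_supp s 1 v k hc))
      rw [ex_val, hv] at h2
      exact congrFun h2 ⟨i, hi⟩
    · rw [Matrix.mulVec, dotProduct]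
      refine Finset.sum_eq_zero fun k _ => ?_
      have : (ψ * Y) i k = 0 := by
        by_contra hc
        exact hi (hrow i k hc)
      rw [this, zero_mul]
  have h2 : Y.mulVec (ex s 1 v) = 0 := by
    rw [← Matrix.mulVec_mulVec] at h1
    by_contra hc
    exact hG.unit (Matrix.exists_mulVec_eq_zero_iff.1 ⟨_, hc, h1⟩)
  have h3 : (X * Y).mulVec (ex s 1 v) = 0 := by
    rw [← Matrix.mulVec_mulVec, h2, Matrix.mulVec_zero]
  have h4 := bq_mulVec s 1 1 (X * Y) (ex s 1 v) (fun i k _ hk => by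
    right
    by_contra hc
    exact hk (ex_supp s 1 v k hc))
  rw [ex_val, h, h3, Matrix.smul_mulVec, Matrix.one_mulVec] at h4
  by_contra hc
  apply hv0
  ext j
  have h5 := congrFun h4 j
  have h6 : c * v j = 0 := h5.symm
  exact (mul_eq_zero.1 h6).resolve_left hc

/-- the maps `a₋₁ V₊ → V₀` generate -/
theorem gen0 [CharZero K] (hSPB : ST_SPB) {ψ : Matrix (Fin n) (Fin n) K} {ε : K}
    (hG : GrD ε ψ s a) (hs : ∀ j, |s j| ≤ 1) (h1 : ∃ j, s j = 1) (v : {j // s j = 0} → K) :
    v ∈ Submodule.span K {u | ∃ b ∈ BB s 0 1 a, ∃ x : {j // s j = 1} → K, u = b.mulVec x} := by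
  have h := (hSPB K n ε ψ s a hG hs h1).1 (ex s 0 v) (ex_supp s 0 v)
  have h2 := Submodule.mem_map_of_mem (f := rs s 0) h
  rw [Submodule.map_span] at h2
  have h3 : rs s 0 (ex s 0 v) = v := ex_val s 0 v
  rw [h3] at h2
  refine Submodule.span_mono ?_ h2
  rintro _ ⟨_, ⟨A, hA, hA', x, hx, rfl⟩, rfl⟩
  refine ⟨bq s 0 1 A, ⟨A, hA, by simpa using hm_iff.1 hA', rfl⟩, fun j => x j.1, ?_⟩
  exact bq_mulVec s 0 1 A x fun i k _ hk => Or.inr (by
    by_contra hc
    exact hk (hx k hc))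

/-- the maps `a₁ : V₀ → V₊` separate -/
theorem sep0 [CharZero K] (hSPB : ST_SPB) {ψ : Matrix (Fin n) (Fin n) K} {ε : K}
    (hG : GrD ε ψ s a) (hs : ∀ j, |s j| ≤ 1) (h1 : ∃ j, s j = 1) (v : {j // s j = 0} → K)
    (hv : ∀ b ∈ BB s 1 0 a, b.mulVec v = 0) : v = 0 := by
  have h := (hSPB K n ε ψ s a hG hs h1).2 (ex s 0 v) (ex_supp s 0 v) ?_
  · rw [← ex_val s 0 v, h]
    rfl
  · intro A hA hA'
    have hA0 : Hm s 1 A := hm_iff.1 hA'
    have h2 := bq_mulVec s 1 0 A (ex s 0 v) (fun i k _ hk => by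
      right
      by_contra hc
      exact hk (ex_supp s 0 v k hc))
    rw [ex_val, hv _ ⟨A, hA, by simpa using hA0, rfl⟩] at h2
    ext j
    by_cases hj : s j = 1
    · exact congrFun h2 ⟨j, hj⟩
    · rw [Matrix.mulVec, dotProduct]
      refine Finset.sum_eq_zero fun k _ => ?_
      by_contra hc
      have h3 := hA0 j k (left_ne_zero_of_mul hc)
      have h4 := ex_supp s 0 v k (right_ne_zero_of_mul hc)
      omega

end SCPx

open SCPx in
/-- Row SCP. -/
theorem st_SCP (hALG : ST_ALG) (hCNT : ST_CNT) (hRK1 : ST_RK1) (hTRC : ST_TRC) (hSPB : ST_SPB)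
    (hTPI : ST_TPI) (hFIN : ST_FIN) : ST_SCP := by
  intro K _ _ _ n ψ s a hG hs h0 hz hodd hcop
  obtain ⟨z, hz, hz2, hz0⟩ := hz
  have hz2' : Hm s 2 z := hm_iff.1 hz2
  have hc1 : Fintype.card {j // s j = 1} = (Finset.univ.filter fun j => s j = 1).card :=
    Fintype.card_subtype _
  have hc0 : Fintype.card {j // s j = 0} = (Finset.univ.filter fun j => s j = 0).card :=
    Fintype.card_subtype _
  have h1 : ∃ j, s j = 1 := by
    by_contra hc
    push Not at hc
    rw [Finset.filter_false_of_mem (fun j _ => hc j)] at hodd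
    simp at hodd
  set G := GG s a with hGdef
  have hne : G.toSubmodule ≠ ⊥ := by
    intro hbot
    refine GG_ne hTRC hG hs hz hz2' hz0 fun Y hY hY' => ?_
    have : bq s 1 1 (z * Y) ∈ G.toSubmodule :=
      NonUnitalAlgebra.subset_adjoin K ⟨z, hz, Y, hY, hz2', hY', rfl⟩
    rw [hbot, Submodule.mem_bot] at this
    exact this
  have hmulG : ∀ x ∈ G.toSubmodule, ∀ y ∈ G.toSubmodule, x * y ∈ G.toSubmodule :=
    fun x hx y hy => mul_mem (S := NonUnitalSubalgebra K _) (s := G) hx hy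
  have hcomG : ∀ w ∈ (BB s 1 1 a : Set (Matrix {j // s j = 1} {j // s j = 1} K)),
      ∀ x ∈ G.toSubmodule, w * x - x * w ∈ G.toSubmodule :=
    fun w hw x hx => comm_GG hG.brk hw hx
  obtain ⟨f, hf, hff, hf0, hfc, hfs, hft⟩ := hALG K {j // s j = 1} G.toSubmodule
    (BB s 1 1 a : Set (Matrix {j // s j = 1} {j // s j = 1} K)) hmulG hcomG
    (irr_top hTPI hG.brk hG.irr hG.comp hs) hne
  -- `f ≠ 1`
  have hf1 : f ≠ 1 := by
    rintro rfl
    refine GG_ne hTRC hG hs hz hz2' hz0 fun Y hY hY' => ?_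
    have h2 : bq s 1 1 (z * Y) ∈ G.toSubmodule :=
      NonUnitalAlgebra.subset_adjoin K ⟨z, hz, Y, hY, hz2', hY', rfl⟩
    obtain ⟨c, hc⟩ := hfc _ h2
    rw [one_mul, mul_one] at hc
    have h3 := no_scalar hG hs (hc1 ▸ hodd) hY hY' hc
    rw [hc, h3, zero_smul]
  -- `u ∣ α`
  have hu1 : f.rank ∣ Fintype.card {j // s j = 1} := by
    refine hCNT K {j // s j = 1} {j // s j = 1} f
      (G.toSubmodule.map (LinearMap.mulLeft K f)) (G.toSubmodule.map (LinearMap.mulRight K f))
      hff ?_ ?_ ?_ ?_ ?_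
    · rintro _ ⟨x, _, rfl⟩
      show f * (f * x) = f * x
      rw [← Matrix.mul_assoc, hff]
    · rintro _ ⟨x, _, rfl⟩
      show x * f * f = x * f
      rw [Matrix.mul_assoc, hff]
    · rintro _ ⟨x, hx, rfl⟩ _ ⟨y, hy, rfl⟩
      obtain ⟨c, hc⟩ := hfc _ (hmulG x hx y hy)
      refine ⟨c, ?_⟩
      show f * x * (y * f) = c • f
      rw [← hc]
      noncomm_ring
    · intro v
      refine Submodule.span_mono ?_ (hfs v)
      rintro _ ⟨x, hx, u', rfl⟩
      exact ⟨x * f, ⟨x, hx, rfl⟩, u', rfl⟩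
    · intro v hv
      exact hft v fun x hx => hv _ ⟨x, hx, rfl⟩
  -- `k`
  obtain ⟨k, hk, hkq⟩ : ∃ k ∈ G.toSubmodule, k * f - f * k * f ≠ 0 := by
    by_contra hc
    push Not at hc
    apply hf1
    have h2 : ∀ v : {j // s j = 1} → K, f.mulVec v = v := by
      intro v
      refine Submodule.span_induction (p := fun v _ => f.mulVec v = v) ?_ ?_ ?_ ?_ (hfs v)
      · rintro _ ⟨x, hx, u', rfl⟩
        have h3 := sub_eq_zero.1 (hc x hx)
        rw [Matrix.mulVec_mulVec, ← Matrix.mul_assoc, ← h3]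
      · exact Matrix.mulVec_zero f
      · intro x y _ _ hx hy
        rw [Matrix.mulVec_add, hx, hy]
      · intro c x _ hx
        rw [Matrix.mulVec_smul, hx]
    ext i j
    have h3 := congrFun (h2 (Pi.single j 1)) i
    rw [Matrix.mulVec_single_one] at h3
    rw [Matrix.one_apply]
    simpa [Pi.single_apply] using h3
  obtain ⟨g, hg, hgq⟩ : ∃ g ∈ G.toSubmodule, f * g * (k * f - f * k * f) ≠ 0 := by
    by_contra hc
    push Not at hc
    apply hkq
    ext i j
    have h2 : (k * f - f * k * f).mulVec (Pi.single j 1) = 0 := by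
      refine hft _ fun x hx => ?_
      rw [Matrix.mulVec_mulVec, hc x hx, Matrix.zero_mulVec]
    have h3 := congrFun h2 i
    rw [Matrix.mulVec_single_one] at h3
    exact h3
  obtain ⟨c, hc, hcne⟩ : ∃ c : K, f * g * (k * f - f * k * f) = c • f ∧ c ≠ 0 := by
    obtain ⟨c1, hc1'⟩ := hfc _ (hmulG g hg k hk)
    obtain ⟨c2, hc2⟩ := hfc _ (hmulG _ (hmulG g hg f hf) k hk)
    have h2 : f * g * (k * f - f * k * f) = (c1 - c2) • f := by
      rw [sub_smul, ← hc1', ← hc2]
      noncomm_ring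
    refine ⟨c1 - c2, h2, ?_⟩
    intro h3
    rw [h3, zero_smul] at h2
    exact hgq h2
  set h : Matrix {j // s j = 1} {j // s j = 1} K := c⁻¹ • (f * g - f * g * f) with hh
  have hhG : h ∈ G.toSubmodule :=
    Submodule.smul_mem _ _ (Submodule.sub_mem _ (hmulG f hf g hg) (hmulG _ (hmulG f hf g hg) f hf))
  have hhf : h * f = 0 := by
    rw [hh, Matrix.smul_mul, Matrix.sub_mul, Matrix.mul_assoc (f * g) f f, hff, sub_self, smul_zero]
  have hhk : h * k * f = f := by
    rw [hh, Matrix.smul_mul, Matrix.smul_mul]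
    have h2 : (f * g - f * g * f) * k * f = c • f := by
      rw [← hc]
      noncomm_ring
    rw [h2, smul_smul, inv_mul_cancel₀ hcne, one_smul]
  -- `f e f ∈ K f`
  have hfef : ∀ b ∈ BB s 1 0 a, ∀ b' ∈ BB s 0 1 a, ∃ c : K, f * (b * b') * f = c • f := by
    intro b hb b' hb'
    have h2 : (f * b) * (b' * h) ∈ BB s 1 1 a :=
      BB_mul hG.brk hs (GG_mul hG.brk hs hf hb) (mul_GG hG.brk hs hhG hb')
    have h3 := hcomG _ h2 k hk
    obtain ⟨c', hc'⟩ := hfc _ h3
    refine ⟨c', ?_⟩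
    rw [← hc']
    have h4 : f * (f * b * (b' * h) * k - k * (f * b * (b' * h))) * f =
        f * f * b * b' * (h * k * f) - f * k * f * b * b' * (h * f) := by
      simp only [Matrix.mul_assoc, Matrix.mul_sub, Matrix.sub_mul]
    rw [h4, hhf, hhk, hff, Matrix.mul_zero, sub_zero]
    simp only [Matrix.mul_assoc]
  have hu0 : f.rank ∣ Fintype.card {j // s j = 0} := by
    refine hCNT K {j // s j = 1} {j // s j = 0} f
      ((BB s 1 0 a).map (mulLeftLinearMap {j // s j = 0} K f))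
      ((BB s 0 1 a).map (mulRightLinearMap {j // s j = 0} K f)) hff ?_ ?_ ?_ ?_ ?_
    · rintro _ ⟨x, _, rfl⟩
      show f * (f * x) = f * x
      rw [← Matrix.mul_assoc, hff]
    · rintro _ ⟨x, _, rfl⟩
      show x * f * f = x * f
      rw [Matrix.mul_assoc, hff]
    · rintro _ ⟨x, hx, rfl⟩ _ ⟨y, hy, rfl⟩
      obtain ⟨c, hc⟩ := hfef x hx y hy
      refine ⟨c, ?_⟩
      show f * x * (y * f) = c • f
      rw [← hc]
      simp only [Matrix.mul_assoc]
    · intro v
      have h2 := gen0 hSPB hG hs h1 v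
      refine Submodule.span_le.2 ?_ h2
      rintro _ ⟨b, hb, x, rfl⟩
      -- `b x` with `x` in the span of `G f`
      have h3 := Submodule.mem_map_of_mem (f := b.mulVecLin) (hfs x)
      rw [Submodule.map_span] at h3
      refine Submodule.span_mono ?_ h3
      rintro _ ⟨_, ⟨y, hy, u', rfl⟩, rfl⟩
      refine ⟨b * y * f, ⟨b * y, mul_GG hG.brk hs hy hb, rfl⟩, u', ?_⟩
      show b.mulVec ((y * f).mulVec u') = (b * y * f).mulVec u'
      rw [Matrix.mulVec_mulVec, Matrix.mul_assoc]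
    · intro v hv
      refine sep0 hSPB hG hs h1 v fun b hb => ?_
      refine hft _ fun x hx => ?_
      rw [Matrix.mulVec_mulVec, Matrix.mul_assoc]
      exact hv _ ⟨x * b, GG_mul hG.brk hs hx hb, rfl⟩
  have hu : f.rank = 1 := hcop _ (hc1 ▸ hu1) (hc0 ▸ hu0)
  obtain ⟨hA, hB⟩ := hRK1 K {j // s j = 1} {j // s j = 0} f G.toSubmodule hff hu hf hfs hft
  have hT1 : BB s 1 0 a = ⊤ := by
    refine hA _ (fun x hx y hy => GG_mul hG.brk hs hx hy) fun v hv => ?_
    refine sep0 hSPB hG hs h1 v fun b hb => ?_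
    refine hft _ fun x hx => ?_
    rw [Matrix.mulVec_mulVec, Matrix.mul_assoc]
    exact hv _ (GG_mul hG.brk hs hx hb)
  have hT2 : BB s 0 1 a = ⊤ := by
    refine hB _ (fun x hx y hy => mul_GG hG.brk hs hx hy) fun v => ?_
    have h2 := gen0 hSPB hG hs h1 v
    refine Submodule.span_le.2 ?_ h2
    rintro _ ⟨b, hb, x, rfl⟩
    have h3 := Submodule.mem_map_of_mem (f := b.mulVecLin) (hfs x)
    rw [Submodule.map_span] at h3
    refine Submodule.span_mono ?_ h3
    rintro _ ⟨_, ⟨y, hy, u', rfl⟩, rfl⟩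
    refine ⟨b * y, mul_GG hG.brk hs hy hb, u', ?_⟩
    show b.mulVec ((y * f).mulVec u') = (b * y * f).mulVec u'
    rw [Matrix.mulVec_mulVec, Matrix.mul_assoc]
  refine hFIN K n 1 ψ s a hG hs h1 h0 ?_ ?_
  · intro M
    have h2 : bq s 1 0 M ∈ BB s 1 0 a := by rw [hT1]; exact Submodule.mem_top
    obtain ⟨A, hA, _, hA'⟩ := h2
    exact ⟨A, hA, fun i j hi hj => congrFun (congrFun hA' ⟨i, hi⟩) ⟨j, hj⟩⟩
  · intro M
    have h2 : bq s 0 1 M ∈ BB s 0 1 a := by rw [hT2]; exact Submodule.mem_top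
    obtain ⟨A, hA, _, hA'⟩ := h2
    exact ⟨A, hA, fun i j hi hj => congrFun (congrFun hA' ⟨i, hi⟩) ⟨j, hj⟩⟩

end MT
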