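import Pool.Agent.Helper21.WD.Stmts2
import Pool.Agent.Helper5.WD.SCP

/-!
# T13, row SC2: elements of degree two, without parity conditions
-/

set_option autoImplicit false

open Matrix

namespace MT

namespace SCPx

variable {K : Type} [Field K] {n : ℕ}

variable {s : Fin n → ℤ} {a : Submodule K (Matrix (Fin n) (Fin n) K)}

/-- `G ≠ 0` -/
theorem GG_neE [CharZero K] [IsAlgClosed K] (hTRC : ST_TRC) {ψ : Matrix (Fin n) (Fin n) K} {ε : K}
    (hG : GrD ε ψ s a) (hs : ∀ j, |s j| ≤ 1) {z : Matrix (Fin n) (Fin n) K} (hz : z ∈ a)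
    (hz2 : Hm s 2 z) (hz0 : z ≠ 0) (h : ∀ Y ∈ a, Hm s (-2) Y → bq s 1 1 (z * Y) = 0) : False := by
  apply hz0
  refine hTRC K n ψ a hG.unit hG.brk hG.irr hG.iso z hz fun y hy => ?_
  have hY : cmp s (-2) y ∈ a := hG.comp y hy (-2)
  have hY2 : Hm s (-2) (cmp s (-2) y) := by
    intro i j hij
    by_contra hc
    exact hij (by simp [cmp, hc])
  have h1 := h _ hY hY2
  rw [Matrix.trace]
  refine Finset.sum_eq_zero fun i _ => ?_
  rw [Matrix.diag_apply, Matrix.mul_apply]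
  by_cases hi : s i = 1
  · have h2 := congrFun (congrFun h1 ⟨i, hi⟩) ⟨i, hi⟩
    have h3 : (z * cmp s (-2) y) i i = 0 := h2
    rw [Matrix.mul_apply] at h3
    rw [← h3]
    refine Finset.sum_congr rfl fun k _ => ?_
    by_cases hk : z i k = 0
    · simp [hk]
    · have h4 := hz2 i k hk
      have h5 : s k - s i = -2 := by omega
      simp [cmp, h5]
  · refine Finset.sum_eq_zero fun k _ => ?_
    have : z i k = 0 := by
      by_contra hc
      have h1 := hz2 i k hc
      have h2 := bd' hs i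
      have h3 := bd' hs k
      omega
    rw [this, zero_mul]

theorem card_pm {ψ : Matrix (Fin n) (Fin n) K} {ε : K} (hG : GrD ε ψ s a) :
    Fintype.card {j // s j = 1} = Fintype.card {j // s j = -1} := by
  have hu : IsUnit ψ.det := isUnit_iff_ne_zero.2 hG.unit
  have h1 : bq s 1 (-1) ψ * bq s (-1) 1 ψ⁻¹ = 1 := by
    rw [← bq_mul s 1 (-1) 1 ψ ψ⁻¹ (fun i k j hi _ hk => Or.inl (by
      by_contra hc
      have := hG.grad i k hc
      omega)), Matrix.mul_nonsing_inv _ hu]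
    ext i j
    simp [bq, Matrix.one_apply, Subtype.ext_iff]
  have h2 : bq s (-1) 1 ψ⁻¹ * bq s 1 (-1) ψ = 1 := by
    rw [← bq_mul s (-1) 1 (-1) ψ⁻¹ ψ (fun i k j _ hj hk => Or.inr (by
      by_contra hc
      have := hG.grad k j hc
      omega)), Matrix.nonsing_inv_mul _ hu]
    ext i j
    simp [bq, Matrix.one_apply, Subtype.ext_iff]
  exact Matrix.square_of_invertible _ _ h1 h2

/-- if the products are scalars, then there is at most one element of degree two -/
theorem one_of_scalar {ψ : Matrix (Fin n) (Fin n) K} {ε : K} (hG : GrD ε ψ s a)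
    (hs : ∀ j, |s j| ≤ 1) {z Y : Matrix (Fin n) (Fin n) K} (hz : Hm s 2 z)
    {c₀ : K} (hc : c₀ ≠ 0)
    (h0 : bq s 1 1 (z * Y) = c₀ • (1 : Matrix {j // s j = 1} {j // s j = 1} K))
    {X : Matrix (Fin n) (Fin n) K} (hX : Hm s 2 X) {c : K}
    (h : bq s 1 1 (X * Y) = c • (1 : Matrix {j // s j = 1} {j // s j = 1} K)) :
    X = (c / c₀) • z := by
  have key : ∀ A : Matrix (Fin n) (Fin n) K, Hm s 2 A →
      bq s 1 1 (A * Y) = bq s 1 (-1) A * bq s (-1) 1 Y := by
    intro A hA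
    refine bq_mul s 1 (-1) 1 A Y fun i k j hi _ hk => Or.inl ?_
    by_contra hc
    have := hA i k hc
    omega
  rw [key z hz] at h0
  rw [key X hX] at h
  have h1 : bq s 1 (-1) (c₀⁻¹ • z) * bq s (-1) 1 Y = 1 := by
    rw [bq_smul, Matrix.smul_mul, h0, smul_smul, inv_mul_cancel₀ hc, one_smul]
  have h2 : bq s (-1) 1 Y * bq s 1 (-1) (c₀⁻¹ • z) = 1 :=
    (Matrix.mul_eq_one_comm_of_card_eq _ _ _ (card_pm hG)).1 h1
  have h3 : bq s 1 (-1) X = bq s 1 (-1) ((c / c₀) • z) := by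
    have h4 : bq s 1 (-1) X * (bq s (-1) 1 Y * bq s 1 (-1) (c₀⁻¹ • z)) =
        c • bq s 1 (-1) (c₀⁻¹ • z) := by
      rw [← Matrix.mul_assoc, h, Matrix.smul_mul, Matrix.one_mul]
    rw [h2, Matrix.mul_one] at h4
    rw [h4, ← bq_smul, smul_smul, div_eq_mul_inv]
  ext i j
  by_cases hi : s i = 1
  · by_cases hj : s j = -1
    · exact congrFun (congrFun h3 ⟨i, hi⟩) ⟨j, hj⟩
    · have e1 : X i j = 0 := by
        by_contra hc
        have := hX i j hc
        omega
      have e2 : z i j = 0 := by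
        by_contra hc
        have := hz i j hc
        omega
      rw [e1, Matrix.smul_apply, e2, smul_zero]
  · have e1 : X i j = 0 := by
      by_contra hc
      have h5 := hX i j hc
      have h6 := bd' hs i
      have h7 := bd' hs j
      omega
    have e2 : z i j = 0 := by
      by_contra hc
      have h5 := hz i j hc
      have h6 := bd' hs i
      have h7 := bd' hs j
      omega
    rw [e1, Matrix.smul_apply, e2, smul_zero]

end SCPx

open SCPx in
/-- Row SC2. -/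
theorem st_SC2 (hALG : ST_ALG) (hCNT : ST_CNT) (hRK1 : ST_RK1) (hTRC : ST_TRC) (hSPB : ST_SPB)
    (hTPI : ST_TPI) (hFIN : ST_FIN) : ST_SC2 := by
  intro K _ _ _ n ε ψ s a hG hs h1 h0 hcop
  by_cases hz : ∃ z ∈ a, cmp s 2 z = z ∧ z ≠ 0
  swap
  · left
    push Not at hz
    exact ⟨0, fun z hza hz' => ⟨0, by rw [hz z hza hz', smul_zero]⟩⟩
  obtain ⟨z, hz, hz2, hz0⟩ := hz
  have hz2' : Hm s 2 z := hm_iff.1 hz2
  have hc1 : Fintype.card {j // s j = 1} = (Finset.univ.filter fun j => s j = 1).card :=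
    Fintype.card_subtype _
  have hc0 : Fintype.card {j // s j = 0} = (Finset.univ.filter fun j => s j = 0).card :=
    Fintype.card_subtype _
  set G := GG s a with hGdef
  have hne : G.toSubmodule ≠ ⊥ := by
    intro hbot
    refine GG_neE hTRC hG hs hz hz2' hz0 fun Y hY hY' => ?_
    have : bq s 1 1 (z * Y) ∈ G.toSubmodule :=
      NonUnitalAlgebra.subset_adjoin K ⟨z, hz, Y, hY, hz2', hY', rfl⟩
    rw [hbot, Submodule.mem_bot] at this
    exact this
  have hmulG : ∀ x ∈ G.toSubmodule, ∀ y ∈ G.toSubmodule, x * y ∈ G.toSubmodule :=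
    fun x hx y hy => mul_mem (S := NonUnitalSubalgebra K _) (s := G) hx hy
  have hcomG : ∀ w ∈ (BB s 1 1 a : Set (Matrix {j // s j = 1} {j // s j = 1} K)),
      ∀ x ∈ G.toSubmodule, w * x - x * w ∈ G.toSubmodule :=
    fun w hw x hx => comm_GG hG.brk hw hx
  obtain ⟨f, hf, hff, hf0, hfc, hfs, hft⟩ := hALG K {j // s j = 1} G.toSubmodule
    (BB s 1 1 a : Set (Matrix {j // s j = 1} {j // s j = 1} K)) hmulG hcomG
    (irr_top hTPI hG.brk hG.irr hG.comp hs) hne
  by_cases hf1 : f = 1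
  · left
    subst hf1
    have hsc : ∀ X ∈ a, Hm s 2 X → ∀ Y ∈ a, Hm s (-2) Y → ∃ c : K,
        bq s 1 1 (X * Y) = c • (1 : Matrix {j // s j = 1} {j // s j = 1} K) := by
      intro X hX hX' Y hY hY'
      have h2 : bq s 1 1 (X * Y) ∈ G.toSubmodule :=
        NonUnitalAlgebra.subset_adjoin K ⟨X, hX, Y, hY, hX', hY', rfl⟩
      obtain ⟨c, hc⟩ := hfc _ h2
      rw [one_mul, mul_one] at hc
      exact ⟨c, hc⟩
    obtain ⟨Y, hY, hY', hne'⟩ : ∃ Y ∈ a, Hm s (-2) Y ∧ bq s 1 1 (z * Y) ≠ 0 := by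
      by_contra hc
      push Not at hc
      exact GG_neE hTRC hG hs hz hz2' hz0 hc
    obtain ⟨c₀, hc₀⟩ := hsc z hz hz2' Y hY hY'
    have hc₀' : c₀ ≠ 0 := by
      rintro rfl
      exact hne' (by rw [hc₀, zero_smul])
    refine ⟨z, fun X hX hX' => ?_⟩
    obtain ⟨c, hc⟩ := hsc X hX (hm_iff.1 hX') Y hY hY'
    exact ⟨c / c₀, one_of_scalar hG hs hz2' hc₀' hc₀ (hm_iff.1 hX') hc⟩
  right
  -- `u ∣ α`
  have hu1 : f.rank ∣ Fintype.card {j // s j = 1} := by
    refine hCNT K {j // s j = 1} {j // s j = 1} f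
      (G.toSubmodule.map (LinearMap.mulLeft K f)) (G.toSubmodule.map (LinearMap.mulRight K f))
      hff ?_ ?_ ?_ ?_ ?_
    · rintro _ ⟨x, _, rfl⟩
      show f * (f * x) = f * x
      rw [← Matrix.mul_assoc, hff]
    · rintro _ ⟨x, _, rfl⟩
      show x * f * f = x * f
      rw [Matrix.mul_assoc, hff]
    · rintro _ ⟨x, hx, rfl⟩ _ ⟨y, hy, rfl⟩
      obtain ⟨c, hc⟩ := hfc _ (hmulG x hx y hy)
      refine ⟨c, ?_⟩
      show f * x * (y * f) = c • f
      rw [← hc]
      noncomm_ring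
    · intro v
      refine Submodule.span_mono ?_ (hfs v)
      rintro _ ⟨x, hx, u', rfl⟩
      exact ⟨x * f, ⟨x, hx, rfl⟩, u', rfl⟩
    · intro v hv
      exact hft v fun x hx => hv _ ⟨x, hx, rfl⟩
  -- `k`
  obtain ⟨k, hk, hkq⟩ : ∃ k ∈ G.toSubmodule, k * f - f * k * f ≠ 0 := by
    by_contra hc
    push Not at hc
    apply hf1
    have h2 : ∀ v : {j // s j = 1} → K, f.mulVec v = v := by
      intro v
      refine Submodule.span_induction (p := fun v _ => f.mulVec v = v) ?_ ?_ ?_ ?_ (hfs v)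
      · rintro _ ⟨x, hx, u', rfl⟩
        have h3 := sub_eq_zero.1 (hc x hx)
        rw [Matrix.mulVec_mulVec, ← Matrix.mul_assoc, ← h3]
      · exact Matrix.mulVec_zero f
      · intro x y _ _ hx hy
        rw [Matrix.mulVec_add, hx, hy]
      · intro c x _ hx
        rw [Matrix.mulVec_smul, hx]
    ext i j
    have h3 := congrFun (h2 (Pi.single j 1)) i
    rw [Matrix.mulVec_single_one] at h3
    rw [Matrix.one_apply]
    simpa [Pi.single_apply] using h3
  obtain ⟨g, hg, hgq⟩ : ∃ g ∈ G.toSubmodule, f * g * (k * f - f * k * f) ≠ 0 := by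
    by_contra hc
    push Not at hc
    apply hkq
    ext i j
    have h2 : (k * f - f * k * f).mulVec (Pi.single j 1) = 0 := by
      refine hft _ fun x hx => ?_
      rw [Matrix.mulVec_mulVec, hc x hx, Matrix.zero_mulVec]
    have h3 := congrFun h2 i
    rw [Matrix.mulVec_single_one] at h3
    exact h3
  obtain ⟨c, hc, hcne⟩ : ∃ c : K, f * g * (k * f - f * k * f) = c • f ∧ c ≠ 0 := by
    obtain ⟨c1, hc1'⟩ := hfc _ (hmulG g hg k hk)
    obtain ⟨c2, hc2⟩ := hfc _ (hmulG _ (hmulG g hg f hf) k hk)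
    have h2 : f * g * (k * f - f * k * f) = (c1 - c2) • f := by
      rw [sub_smul, ← hc1', ← hc2]
      noncomm_ring
    refine ⟨c1 - c2, h2, ?_⟩
    intro h3
    rw [h3, zero_smul] at h2
    exact hgq h2
  set h : Matrix {j // s j = 1} {j // s j = 1} K := c⁻¹ • (f * g - f * g * f) with hh
  have hhG : h ∈ G.toSubmodule :=
    Submodule.smul_mem _ _ (Submodule.sub_mem _ (hmulG f hf g hg) (hmulG _ (hmulG f hf g hg) f hf))
  have hhf : h * f = 0 := by
    rw [hh, Matrix.smul_mul, Matrix.sub_mul, Matrix.mul_assoc (f * g) f f, hff, sub_self, smul_zero]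
  have hhk : h * k * f = f := by
    rw [hh, Matrix.smul_mul, Matrix.smul_mul]
    have h2 : (f * g - f * g * f) * k * f = c • f := by
      rw [← hc]
      noncomm_ring
    rw [h2, smul_smul, inv_mul_cancel₀ hcne, one_smul]
  -- `f e f ∈ K f`
  have hfef : ∀ b ∈ BB s 1 0 a, ∀ b' ∈ BB s 0 1 a, ∃ c : K, f * (b * b') * f = c • f := by
    intro b hb b' hb'
    have h2 : (f * b) * (b' * h) ∈ BB s 1 1 a :=
      BB_mul hG.brk hs (GG_mul hG.brk hs hf hb) (mul_GG hG.brk hs hhG hb')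
    have h3 := hcomG _ h2 k hk
    obtain ⟨c', hc'⟩ := hfc _ h3
    refine ⟨c', ?_⟩
    rw [← hc']
    have h4 : f * (f * b * (b' * h) * k - k * (f * b * (b' * h))) * f =
        f * f * b * b' * (h * k * f) - f * k * f * b * b' * (h * f) := by
      simp only [Matrix.mul_assoc, Matrix.mul_sub, Matrix.sub_mul]
    rw [h4, hhf, hhk, hff, Matrix.mul_zero, sub_zero]
    simp only [Matrix.mul_assoc]
  have hu0 : f.rank ∣ Fintype.card {j // s j = 0} := by
    refine hCNT K {j // s j = 1} {j // s j = 0} f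
      ((BB s 1 0 a).map (mulLeftLinearMap {j // s j = 0} K f))
      ((BB s 0 1 a).map (mulRightLinearMap {j // s j = 0} K f)) hff ?_ ?_ ?_ ?_ ?_
    · rintro _ ⟨x, _, rfl⟩
      show f * (f * x) = f * x
      rw [← Matrix.mul_assoc, hff]
    · rintro _ ⟨x, _, rfl⟩
      show x * f * f = x * f
      rw [Matrix.mul_assoc, hff]
    · rintro _ ⟨x, hx, rfl⟩ _ ⟨y, hy, rfl⟩
      obtain ⟨c, hc⟩ := hfef x hx y hy
      refine ⟨c, ?_⟩
      show f * x * (y * f) = c • f
      rw [← hc]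
      simp only [Matrix.mul_assoc]
    · intro v
      have h2 := gen0 hSPB hG hs h1 v
      refine Submodule.span_le.2 ?_ h2
      rintro _ ⟨b, hb, x, rfl⟩
      -- `b x` with `x` in the span of `G f`
      have h3 := Submodule.mem_map_of_mem (f := b.mulVecLin) (hfs x)
      rw [Submodule.map_span] at h3
      refine Submodule.span_mono ?_ h3
      rintro _ ⟨_, ⟨y, hy, u', rfl⟩, rfl⟩
      refine ⟨b * y * f, ⟨b * y, mul_GG hG.brk hs hy hb, rfl⟩, u', ?_⟩
      show b.mulVec ((y * f).mulVec u') = (b * y * f).mulVec u'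
      rw [Matrix.mulVec_mulVec, Matrix.mul_assoc]
    · intro v hv
      refine sep0 hSPB hG hs h1 v fun b hb => ?_
      refine hft _ fun x hx => ?_
      rw [Matrix.mulVec_mulVec, Matrix.mul_assoc]
      exact hv _ ⟨x * b, GG_mul hG.brk hs hx hb, rfl⟩
  have hu : f.rank = 1 := hcop _ (hc1 ▸ hu1) (hc0 ▸ hu0)
  obtain ⟨hA, hB⟩ := hRK1 K {j // s j = 1} {j // s j = 0} f G.toSubmodule hff hu hf hfs hft
  have hT1 : BB s 1 0 a = ⊤ := by
    refine hA _ (fun x hx y hy => GG_mul hG.brk hs hx hy) fun v hv => ?_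
    refine sep0 hSPB hG hs h1 v fun b hb => ?_
    refine hft _ fun x hx => ?_
    rw [Matrix.mulVec_mulVec, Matrix.mul_assoc]
    exact hv _ (GG_mul hG.brk hs hx hb)
  have hT2 : BB s 0 1 a = ⊤ := by
    refine hB _ (fun x hx y hy => mul_GG hG.brk hs hx hy) fun v => ?_
    have h2 := gen0 hSPB hG hs h1 v
    refine Submodule.span_le.2 ?_ h2
    rintro _ ⟨b, hb, x, rfl⟩
    have h3 := Submodule.mem_map_of_mem (f := b.mulVecLin) (hfs x)
    rw [Submodule.map_span] at h3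
    refine Submodule.span_mono ?_ h3
    rintro _ ⟨_, ⟨y, hy, u', rfl⟩, rfl⟩
    refine ⟨b * y, mul_GG hG.brk hs hy hb, u', ?_⟩
    show b.mulVec ((y * f).mulVec u') = (b * y * f).mulVec u'
    rw [Matrix.mulVec_mulVec, Matrix.mul_assoc]
  refine hFIN K n ε ψ s a hG hs h1 h0 ?_ ?_
  · intro M
    have h2 : bq s 1 0 M ∈ BB s 1 0 a := by rw [hT1]; exact Submodule.mem_top
    obtain ⟨A, hA, _, hA'⟩ := h2
    exact ⟨A, hA, fun i j hi hj => congrFun (congrFun hA' ⟨i, hi⟩) ⟨j, hj⟩⟩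
  · intro M
    have h2 : bq s 0 1 M ∈ BB s 0 1 a := by rw [hT2]; exact Submodule.mem_top
    obtain ⟨A, hA, _, hA'⟩ := h2
    exact ⟨A, hA, fun i j hi hj => congrFun (congrFun hA' ⟨i, hi⟩) ⟨j, hj⟩⟩

end MT
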