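import Pool.Agent.Helper82.WD.CAS

/-!
# DIM: the dimensions of the graded pieces
-/

set_option autoImplicit false

open Matrix

namespace MT

namespace DIM5

open BND92 CAS82

variable {K : Type} [Field K] {n : ℕ}

/-- the trace form as a map of the piece of degree `x` into the dual of the piece of degree `-x` -/
noncomputable def G (s : Fin n → ℤ) (a : Submodule K (Matrix (Fin n) (Fin n) K)) (x y : ℤ) :
    gr s x a →ₗ[K] Module.Dual K (gr s y a) :=
  LinearMap.mk₂ K (fun (A : gr s x a) (B : gr s y a) => ((A : Matrix (Fin n) (Fin n) K) *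
      (B : Matrix (Fin n) (Fin n) K)).trace)
    (by
      intro x x' y
      rw [Submodule.coe_add, Matrix.add_mul, Matrix.trace_add])
    (by
      intro c x y
      rw [Submodule.coe_smul, Matrix.smul_mul, Matrix.trace_smul])
    (by
      intro x y y'
      rw [Submodule.coe_add, Matrix.mul_add, Matrix.trace_add])
    (by
      intro c x y
      rw [Submodule.coe_smul, Matrix.mul_smul, Matrix.trace_smul])

theorem finrank_le (s : Fin n → ℤ) (a : Submodule K (Matrix (Fin n) (Fin n) K))
    (hc : ∀ A ∈ a, ∀ x : ℤ, cmp s x A ∈ a)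
    (hnd : ∀ x ∈ a, (∀ y ∈ a, (x * y).trace = 0) → x = 0) (x y : ℤ) (hy : y = -x) :
    Module.finrank K (gr s x a) ≤ Module.finrank K (gr s y a) := by
  subst hy
  have hinj : Function.Injective (G s a x (-x)) := by
    rw [← LinearMap.ker_eq_bot, LinearMap.ker_eq_bot']
    intro A hA
    apply Subtype.ext
    refine hnd A.1 A.2.1 fun B hB => ?_
    rw [trace_cmp s x _ B A.2.2]
    have h1 := LinearMap.congr_fun hA ⟨cmp s (-x) B, hc B hB _, hm_cmp s _ B⟩
    exact h1
  have h1 := LinearMap.finrank_le_finrank_of_injective hinj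
  rwa [Subspace.dual_finrank_eq] at h1

theorem finrank_eq (s : Fin n → ℤ) (a : Submodule K (Matrix (Fin n) (Fin n) K))
    (hc : ∀ A ∈ a, ∀ x : ℤ, cmp s x A ∈ a)
    (hnd : ∀ x ∈ a, (∀ y ∈ a, (x * y).trace = 0) → x = 0) (x : ℤ) :
    Module.finrank K (gr s (-x) a) = Module.finrank K (gr s x a) :=
  le_antisymm (finrank_le s a hc hnd (-x) x (neg_neg x).symm) (finrank_le s a hc hnd x (-x) rfl)

end DIM5

open BND92 CAS82 DIM5

theorem st_DIM (hTRC : ST_TRC) : ST_DIM := by
  intro K _ _ _ n ε ψ s a ha hs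
  have hnd : ∀ x ∈ a, (∀ y ∈ a, (x * y).trace = 0) → x = 0 := fun x hx h =>
    hTRC K n ψ a ha.unit ha.brk ha.irr ha.iso x hx h
  have h1 := finrank_eq s a ha.comp hnd 1
  have h2 := finrank_eq s a ha.comp hnd 2
  refine ⟨h1, ?_⟩
  have hdec : (LinearMap.id : a →ₗ[K] a) = inc s a (-2) ∘ₗ prj s a ha.comp (-2) +
      inc s a (-1) ∘ₗ prj s a ha.comp (-1) + inc s a 0 ∘ₗ prj s a ha.comp 0 +
      inc s a 1 ∘ₗ prj s a ha.comp 1 + inc s a 2 ∘ₗ prj s a ha.comp 2 := by
    ext1 A
    apply Subtype.ext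
    exact sum_cmp s hs (A : Matrix (Fin n) (Fin n) K)
  have h3 : (Module.finrank K a : K) = ((Module.finrank K (gr s (-2) a) +
      Module.finrank K (gr s (-1) a) + Module.finrank K (gr s 0 a) +
      Module.finrank K (gr s 1 a) + Module.finrank K (gr s 2 a) : ℕ) : K) := by
    rw [← LinearMap.trace_id, hdec, map_add, map_add, map_add, map_add, trace_proj, trace_proj,
      trace_proj, trace_proj, trace_proj]
    push_cast
    ring
  have h4 := Nat.cast_injective h3
  rw [h4, h1, h2]
  ring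

end MT
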