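import Pool.Agent.Helper5.WD.Stmts
import Pool.Agent.Helper5.FV.Final

/-! # WD: final form -/

set_option autoImplicit false

open Finset Pool.Agent.Helper8.UN Pool.Agent.Helper5.FV

namespace Pool.Agent.Helper5.WD

/-- final form -/
def ST_WFIN : Prop :=
    ∃ c C : ℝ, 0 < c ∧ 0 < C ∧ ∀ n : ℕ, 2 ≤ n → ∀ (E : Finset (Finset (Fin n))) (b : ℕ → ℕ),
      (∀ e ∈ E, e.Nonempty) →
      (∀ m : ℕ, b m = Set.ncard {P : Finset (Finset (Fin n)) |
          P.card = m ∧
          (∀ B ∈ P, B.Nonempty) ∧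
          (∀ B ∈ P, ∀ C ∈ P, B ≠ C → Disjoint B C) ∧
          (∀ v : Fin n, ∃ B ∈ P, v ∈ B) ∧
          (∀ B ∈ P, ∀ e ∈ E, ¬ e ⊆ B)}) →
      ((∃ W0 : Finset (Fin n), (W0.card : ℝ) ≤ c * (Real.sqrt n / Real.log n) ∧
          ∀ v : Fin n, v ∉ W0 →
            ((E.filter (fun e => v ∈ e ∧ (e.card : ℝ) < C * Real.log n ∧
              (e.card < 4 ∨ (e ∩ W0).Nonempty))).card : ℝ) ≤ c * (n / Real.log n) ∧
            ∑ e ∈ E.filter (fun e => v ∈ e ∧ 4 ≤ e.card ∧ (e.card : ℝ) < C * Real.log n ∧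
              Disjoint e W0), (C * Real.log n / n) ^ (e.card - 2) ≤ c) ∨
        ∑ e ∈ E.filter (fun e => (e.card : ℝ) < C * Real.log n), (e.card : ℝ) ≤
          c * ((n : ℝ) * Real.sqrt n / Real.log n ^ 2)) →
      ∃ k : ℕ,
        (∀ i j : ℕ, 1 ≤ i → i ≤ j → j ≤ k → b i ≤ b j) ∧
        (∀ i j : ℕ, k ≤ i → i ≤ j → j ≤ n → b j ≤ b i)

theorem st_WFIN (h1 : ST_XMAC) (h2 : ST_EDS) : ST_WFIN := by
  obtain ⟨c1, C1, hc1, hC1, g1⟩ := h1
  obtain ⟨c2, C2, hc2, hC2, g2⟩ := h2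
  refine ⟨min c1 c2, max C1 C2, lt_min hc1 hc2, lt_of_lt_of_le hC1 (le_max_left _ _), ?_⟩
  intro n hn E b hE hb hyp
  have hb' : b = Pool.Agent.Helper89.UB.bc E := funext fun m => hb m
  rw [hb']
  have hn2 : (2 : ℝ) ≤ n := by exact_mod_cast hn
  have hlog : 0 < Real.log n := Real.log_pos (by linarith)
  have hCC : C1 * Real.log n ≤ max C1 C2 * Real.log n :=
    mul_le_mul_of_nonneg_right (le_max_left _ _) hlog.le
  rcases hyp with ⟨W0, hW, hdeg⟩ | hcard
  · refine g1 n hn E W0 hE ?_ ?_ ?_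
    · refine hW.trans ?_
      exact mul_le_mul_of_nonneg_right (min_le_left _ _) (by positivity)
    · intro v hv
      have hsub : E.filter (fun e => v ∈ e ∧ (e.card : ℝ) < C1 * Real.log n ∧
          (e.card < 4 ∨ (e ∩ W0).Nonempty)) ⊆
          E.filter (fun e => v ∈ e ∧ (e.card : ℝ) < max C1 C2 * Real.log n ∧
          (e.card < 4 ∨ (e ∩ W0).Nonempty)) := by
        intro e he
        rw [Finset.mem_filter] at he ⊢
        exact ⟨he.1, he.2.1, he.2.2.1.trans_le hCC, he.2.2.2⟩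
      have h3 := Finset.card_le_card hsub
      have h4 : ((E.filter (fun e => v ∈ e ∧ (e.card : ℝ) < C1 * Real.log n ∧
          (e.card < 4 ∨ (e ∩ W0).Nonempty))).card : ℝ) ≤
          ((E.filter (fun e => v ∈ e ∧ (e.card : ℝ) < max C1 C2 * Real.log n ∧
          (e.card < 4 ∨ (e ∩ W0).Nonempty))).card : ℝ) := by exact_mod_cast h3
      refine h4.trans ((hdeg v hv).1.trans ?_)
      exact mul_le_mul_of_nonneg_right (min_le_left _ _) (by positivity)
    · intro v hv
      have hsub : E.filter (fun e => v ∈ e ∧ 4 ≤ e.card ∧ (e.card : ℝ) < C1 * Real.log n ∧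
          Disjoint e W0) ⊆
          E.filter (fun e => v ∈ e ∧ 4 ≤ e.card ∧ (e.card : ℝ) < max C1 C2 * Real.log n ∧
          Disjoint e W0) := by
        intro e he
        rw [Finset.mem_filter] at he ⊢
        exact ⟨he.1, he.2.1, he.2.2.1, he.2.2.2.1.trans_le hCC, he.2.2.2.2⟩
      have hC0 : 0 ≤ C1 * Real.log n / n := by positivity
      have hCm : C1 * Real.log n / n ≤ max C1 C2 * Real.log n / n :=
        div_le_div_of_nonneg_right hCC (by linarith)
      calc ∑ e ∈ E.filter (fun e => v ∈ e ∧ 4 ≤ e.card ∧ (e.card : ℝ) < C1 * Real.log n ∧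
              Disjoint e W0), (C1 * Real.log n / n) ^ (e.card - 2)
          ≤ ∑ e ∈ E.filter (fun e => v ∈ e ∧ 4 ≤ e.card ∧ (e.card : ℝ) < C1 * Real.log n ∧
              Disjoint e W0), (max C1 C2 * Real.log n / n) ^ (e.card - 2) :=
            Finset.sum_le_sum (fun e _ => pow_le_pow_left₀ hC0 hCm _)
        _ ≤ ∑ e ∈ E.filter (fun e => v ∈ e ∧ 4 ≤ e.card ∧ (e.card : ℝ) <
              max C1 C2 * Real.log n ∧ Disjoint e W0),
              (max C1 C2 * Real.log n / n) ^ (e.card - 2) :=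
            Finset.sum_le_sum_of_subset_of_nonneg hsub
              (fun e _ _ => pow_nonneg (hC0.trans hCm) _)
        _ ≤ c1 := (hdeg v hv).2.trans (min_le_left _ _)
  · refine g2 n hn E hE ?_
    have hsub : E.filter (fun e => (e.card : ℝ) < C2 * Real.log n) ⊆
        E.filter (fun e => (e.card : ℝ) < max C1 C2 * Real.log n) := by
      intro e he
      rw [Finset.mem_filter] at he ⊢
      exact ⟨he.1, he.2.trans_le (mul_le_mul_of_nonneg_right (le_max_right _ _) hlog.le)⟩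
    have h3 : ∑ e ∈ E.filter (fun e => (e.card : ℝ) < C2 * Real.log n), (e.card : ℝ) ≤
        ∑ e ∈ E.filter (fun e => (e.card : ℝ) < max C1 C2 * Real.log n), (e.card : ℝ) :=
      Finset.sum_le_sum_of_subset_of_nonneg hsub (fun _ _ _ => Nat.cast_nonneg _)
    refine h3.trans (hcard.trans ?_)
    exact mul_le_mul_of_nonneg_right (min_le_right _ _) (by positivity)

end Pool.Agent.Helper5.WD
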