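import Pool.Agent.Helper5.FV.Stmts

/-!
# WD: weighted degrees

Edges with `3 ≤ |e| < r` vertices count with the weight `κ ^ (2 - |e|)`. The pointwise bound `BD`
for the number of blocked colours is replaced by its average `GD` (Rosenfeld's induction).
-/

set_option autoImplicit false

open Finset Pool.Agent.Helper8.UN Pool.Agent.Helper5.FV

namespace Pool.Agent.Helper5.WD

/-- weight of the edges with at least three and fewer than `r` vertices at `y` -/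
noncomputable def ws {n : ℕ} (E : Finset (Finset (Fin n))) (r : ℕ) (κ : ℝ) (y : Fin n) : ℝ :=
  ∑ e ∈ E.filter (fun e => y ∈ e ∧ 3 ≤ e.card ∧ e.card < r), (1 / κ) ^ (e.card - 2)

/-- adding a vertex multiplies the numbers of colourings by at least `k - D`, if `k ≥ k0` -/
def GD {n : ℕ} (E : Finset (Finset (Fin n))) (D k0 : ℕ) : Prop :=
  ∀ k ≥ k0, ∀ (W : Finset (Fin n)) (y : Fin n), y ∈ W →
    (k - D) * PP E (W.erase y) k ≤ PP E W k ∧ (k - D) * AA E (W.erase y) k ≤ AA E W k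

/-- at most `D0` neighbours -/
def NB {n : ℕ} (E : Finset (Finset (Fin n))) (D0 : ℕ) : Prop :=
  ∀ (W : Finset (Fin n)) (y : Fin n), (nb E W y).card ≤ D0

/-- the hypotheses on the hypergraph -/
structure RegG {n : ℕ} (D0 r : ℕ) (E : Finset (Finset (Fin n))) : Prop where
  two : Two E
  deg : Deg E D0 4
  wt : ∀ y, ws E r (n / (2 * Real.log n)) y ≤ 1 / 40000
  d0 : (D0 : ℝ) ≤ 1 / 100000 * (n / Real.log n)
  r0 : 2000 * Real.log n ≤ r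

/-- the hypotheses: `E` arbitrary at the vertices of `W0` -/
structure RegX {n : ℕ} (D0 r : ℕ) (E : Finset (Finset (Fin n))) (W0 : Finset (Fin n)) : Prop where
  two : Two E
  deg : ∀ v, v ∉ W0 → (E.filter (fun e => v ∈ e ∧ (e.card < 4 ∨
    (e.card < r ∧ (e ∩ W0).Nonempty)))).card ≤ D0
  wt : ∀ v, v ∉ W0 → ws (E.filter (fun e => e ⊆ univ \ W0)) r (n / (2 * Real.log n)) v ≤ 1 / 40000
  d0 : (D0 : ℝ) ≤ 1 / 100000 * (n / Real.log n)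
  r0 : 2000 * Real.log n ≤ r
  w0 : (W0.card : ℝ) ≤ 1 / 100000 * (Real.sqrt n / Real.log n)

/-- bound for the average number of blocked colours at good vertices -/
def DX (n D0 r : ℕ) : ℕ := D0 + n / (r - 1) + 1

/-! ### counting -/

/-- Rosenfeld's induction -/
def ST_GRW : Prop := ∀ (n D0 r k0 : ℕ) (E : Finset (Finset (Fin n))), Two E → 4 ≤ r →
  D0 + 1 < k0 → NB E D0 →
  (∀ y, ws E r ((k0 : ℝ) - (D0 + 1)) y + n.choose (r - 1) / ((k0 : ℝ) - (D0 + 1)) ^ (r - 2) ≤ 1) →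
  GD E (D0 + 1) k0

/-- adding a set of vertices (as F1) -/
def ST_GF1 : Prop := ∀ (n D k0 k : ℕ) (E : Finset (Finset (Fin n))) (W U : Finset (Fin n)), Two E →
  GD E D k0 → k0 ≤ k → Disjoint W U →
  (k - D) ^ U.card * PP E W k ≤ PP E (W ∪ U) k ∧ PP E (W ∪ U) k ≤ k ^ U.card * PP E W k ∧
  (k - D) ^ U.card * AA E W k ≤ AA E (W ∪ U) k

open scoped Classical in
/-- exponential moment of the size of a class (as EXM) -/
def ST_GEXM : Prop := ∀ (n D k0 k : ℕ) (E : Finset (Finset (Fin n))) (W : Finset (Fin n)) (a : ℝ),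
  Two E → GD E D k0 → k0 ≤ k + 1 → D < k + 1 → 0 ≤ a →
  ∑ B ∈ W.powerset.filter (fun B => Pool.Agent.Helper89.UB.Al E B), (PP E (W \ B) k : ℝ) * (1 + a) ^ B.card ≤
    PP E W (k + 1) * (1 + a / ((k : ℝ) + 1 - D)) ^ W.card

open scoped Classical in
/-- two vertices have the same colour (as MON) -/
def ST_GMON : Prop := ∀ (n D k0 k : ℕ) (E : Finset (Finset (Fin n))) (W : Finset (Fin n))
  (z z' : Fin n), Two E → GD E D k0 → k0 ≤ k → z ∈ W → z' ∈ W → z ≠ z' →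
  (k - D) * ((CC E W k).filter (fun f => f z = f z')).card ≤ PP E W k ∧
  (k - D) * ((SS E W k).filter (fun f => f z = f z')).card ≤ AA E W k

open scoped Classical in
/-- large classes (as BGC) -/
def ST_GBGC : Prop := ∀ (n D k0 k s : ℕ) (E : Finset (Finset (Fin n))) (W : Finset (Fin n)), Two E →
  GD E D k0 → k0 ≤ k → 1 ≤ s →
  (k - D) ^ (s - 1) * ((CC E W k).filter (fun f => ∃ i ∈ Finset.Icc 1 k,
    s ≤ (W.filter (fun v => f v = i)).card)).card ≤ n.choose s * PP E W k ∧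
  (k - D) ^ (s - 1) * ((SS E W k).filter (fun f => ∃ i ∈ Finset.Icc 1 k,
    s ≤ (W.filter (fun v => f v = i)).card)).card ≤ n.choose s * AA E W k

open scoped Classical in
/-- monochromatic sets -/
def ST_GMS : Prop := ∀ (n D k0 k : ℕ) (E : Finset (Finset (Fin n))) (W T : Finset (Fin n)), Two E →
  GD E D k0 → k0 ≤ k → T ⊆ W → T.Nonempty →
  (k - D) ^ (T.card - 1) * ((CC E W k).filter (fun f => ∃ i, ∀ v ∈ T, f v = i)).card ≤ PP E W k ∧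
  (k - D) ^ (T.card - 1) * ((SS E W k).filter (fun f => ∃ i, ∀ v ∈ T, f v = i)).card ≤ AA E W k

/-- colours blocked by edges with at least three vertices (as BL3) -/
def ST_GBL3 : Prop := ∀ (n D k0 r k : ℕ) (E : Finset (Finset (Fin n))) (W W' : Finset (Fin n))
  (y : Fin n), Two E → GD E D k0 → k0 ≤ k → D < k → 4 ≤ r → y ∈ W →
  (W' = W ∨ W' = W.erase y) →
  ∑ f ∈ CC E W' k, (bl3 E W k f y : ℝ) ≤ PP E W' k *
    (ws E r ((k : ℝ) - D) y + n * n.choose (r - 1) / ((k : ℝ) - D) ^ (r - 2)) ∧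
  ∑ f ∈ SS E W' k, (bl3 E W k f y : ℝ) ≤ AA E W' k *
    (ws E r ((k : ℝ) - D) y + n * n.choose (r - 1) / ((k : ℝ) - D) ^ (r - 2))

/-- colourings exist (as POS) -/
def ST_GPOS : Prop := ∀ (n D k0 k : ℕ) (E : Finset (Finset (Fin n))) (W : Finset (Fin n)), Two E →
  GD E D k0 → k0 ≤ k → D < k → 0 < PP E W k ∧ (k ≤ W.card → 0 < AA E W k)

/-- ratios (as RAT) -/
def ST_GRAT : Prop := ∀ (n D k0 k : ℕ) (E : Finset (Finset (Fin n))) (W : Finset (Fin n))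
  (v : Fin n), Two E → GD E D k0 → k0 ≤ k → D < k → v ∈ W →
  (PP E W k : ℝ) = (k - hh E W k v) * PP E (W.erase v) k ∧ 0 ≤ hh E W k v ∧ hh E W k v ≤ D ∧
  (k - hs E W k v) * AA E (W.erase v) k ≤ AA E W k

/-- removing a set of vertices (as CHN) -/
def ST_GCHN : Prop := ∀ (n D k0 k : ℕ) (E : Finset (Finset (Fin n))) (W B : Finset (Fin n)) (θ : ℝ),
  Two E → GD E D k0 → k0 ≤ k → D < k → B ⊆ W → 0 ≤ θ → θ ≤ 1 →
  (∀ (W' : Finset (Fin n)) (v : Fin n), W' ⊆ W → W \ B ⊆ W'.erase v → v ∈ W' →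
    (1 - θ) * (k - hh E W' k v) ≤ k - hs E W' k v) →
  AA E (W \ B) k * (PP E W k * (1 - θ) ^ B.card) ≤ (AA E W k * PP E (W \ B) k : ℝ)

/-! ### couplings -/

open scoped Classical in
/-- pointwise bounds (as PTW, with denominator `(k - 2 D0) / 2`) -/
def ST_GPTW : Prop := ∀ (n D0 k : ℕ) (E : Finset (Finset (Fin n))) (W : Finset (Fin n))
  (y : Fin n) (g : Fin n → ℕ), Two E → NB E D0 → 2 * D0 < k → y ∈ W → g ∈ CC E W k →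
  (∀ (k' : ℕ) (f : Fin n → ℕ), (k' = k ∨ k' + 1 = k) → f ∈ CC E W k' →
    tv (fib (CC E W k') f y) (fib (CC E W k) g y) ≤
      (((k : ℝ) - k') + ((nb E W y).filter (fun z => f z ≠ g z)).card + bl3 E W k' f y +
        bl3 E W k g y) / (((k : ℝ) - 2 * D0) / 2)) ∧
  (∀ f : Fin n → ℕ, f ∈ SS E W k →
    tv (fib (SS E W k) f y) (fib (CC E W k) g y) ≤
      (if ∃ z ∈ W, z ≠ y ∧ f z = f y then 0 else 1) +
      (((nb E W y).filter (fun z => f z ≠ g z)).card + (bl3 E W k f y : ℝ) +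
        bl3 E W k g y) / (((k : ℝ) - 2 * D0) / 2))

/-- colourings with `k-1` and with `k` colours (as H1) -/
def ST_GH1 : Prop := ∀ (n D0 k : ℕ) (E : Finset (Finset (Fin n))) (W : Finset (Fin n)) (τ : ℝ),
  Two E → NB E D0 → 8 * D0 ≤ k → 1 < k → 0 ≤ τ → 0 < PP E W (k - 1) → 0 < PP E W k →
  (∀ y ∈ W, ∑ f ∈ CC E W (k - 1), (bl3 E W (k - 1) f y : ℝ) ≤ PP E W (k - 1) * τ) →
  (∀ y ∈ W, ∑ f ∈ CC E W k, (bl3 E W k f y : ℝ) ≤ PP E W k * τ) →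
  ∃ ω : (Fin n → ℕ) → (Fin n → ℕ) → ℝ, Cpl (CC E W (k - 1)) (CC E W k) ω ∧
    ∀ z, pne (CC E W (k - 1)) (CC E W k) ω z ≤ 3 * ((1 + 2 * τ) / (((k : ℝ) - 2 * D0) / 2))

open scoped Classical in
/-- surjective colourings and colourings (as H2) -/
def ST_GH2 : Prop := ∀ (n D0 k : ℕ) (E : Finset (Finset (Fin n))) (W : Finset (Fin n))
  (τ q : ℝ), Two E → NB E D0 → 8 * D0 ≤ k → 0 < k → 0 < τ → 0 ≤ q → 0 < PP E W k →
  0 < AA E W k →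
  (∀ y ∈ W, ∑ f ∈ SS E W k, (bl3 E W k f y : ℝ) ≤ AA E W k * τ) →
  (∀ y ∈ W, ∑ f ∈ CC E W k, (bl3 E W k f y : ℝ) ≤ PP E W k * τ) →
  (∀ y ∈ W, (((SS E W k).filter (fun f => ∀ z ∈ W, z ≠ y → f z ≠ f y)).card : ℝ) ≤
    q * AA E W k) →
  ∃ ω : (Fin n → ℕ) → (Fin n → ℕ) → ℝ, Cpl (SS E W k) (CC E W k) ω ∧
    ∀ z, pne (SS E W k) (CC E W k) ω z ≤ 3 * (q + 2 * τ / (((k : ℝ) - 2 * D0) / 2))

/-! ### the regime -/

/-- sizes of the parameters (as B3N) -/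
def ST_GNUM : Prop := ∃ n₀ : ℕ, ∀ n ≥ n₀, ∀ D0 r k : ℕ,
  (D0 : ℝ) ≤ 1 / 100000 * (n / Real.log n) → 2000 * Real.log n ≤ r →
  65 / 100 * ((n : ℝ) / Real.log n) ≤ k →
  4 ≤ r ∧ 1000 * (D0 + 1) ≤ k ∧ 1000 * DX n D0 r ≤ k ∧ 10000 * D0 ≤ k ∧ 10000 ≤ k ∧
  0 < (n : ℝ) / (2 * Real.log n) ∧ (n : ℝ) / (2 * Real.log n) ≤ (k : ℝ) - DX n D0 r ∧
  (n : ℝ) / (2 * Real.log n) ≤ (k : ℝ) - (D0 + 1) ∧
  n * n.choose (r - 1) / ((k : ℝ) - (D0 + 1)) ^ (r - 2) ≤ 1 / 40000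

/-- all properties of the regime -/
def ST_GRGM : Prop := ∃ n₀ : ℕ, ∀ n ≥ n₀, ∀ (D0 r k : ℕ) (E : Finset (Finset (Fin n))),
  RegG D0 r E → 65 / 100 * ((n : ℝ) / Real.log n) ≤ k →
  4 ≤ r ∧ 1000 * (D0 + 1) ≤ k ∧ 10000 * D0 ≤ k ∧ 10000 ≤ k ∧ NB E D0 ∧ GD E (D0 + 1) k ∧
  (∀ (W W' : Finset (Fin n)) (y : Fin n), y ∈ W → (W' = W ∨ W' = W.erase y) →
    ∑ f ∈ CC E W' k, (bl3 E W k f y : ℝ) ≤ PP E W' k * (1 / 20000) ∧
    ∑ f ∈ SS E W' k, (bl3 E W k f y : ℝ) ≤ AA E W' k * (1 / 20000))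

/-- as HDF -/
def ST_GHDF : Prop := ∃ n₀ : ℕ, ∀ n ≥ n₀, ∀ (D0 r k : ℕ) (E : Finset (Finset (Fin n)))
  (W : Finset (Fin n)) (v : Fin n), RegG D0 r E → 66 / 100 * ((n : ℝ) / Real.log n) ≤ k →
  v ∈ W → |hh E W k v - hh E W (k - 1) v| ≤ 1 / 1000

open scoped Classical in
/-- as SNG -/
def ST_GSNG : Prop := ∃ n₀ : ℕ, ∀ n ≥ n₀, ∀ (D0 r m : ℕ) (E : Finset (Finset (Fin n)))
  (W : Finset (Fin n)) (y : Fin n), RegG D0 r E → (m : ℝ) ≤ 125 / 100 * (n / Real.log n) →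
  9 / 10 * (n : ℝ) ≤ W.card → y ∈ W →
  (((SS E W m).filter (fun f => ∀ z ∈ W, z ≠ y → f z ≠ f y)).card : ℝ) ≤
    5 / Real.log n ^ 2 * AA E W m

/-- as HSF -/
def ST_GHSF : Prop := ∃ n₀ : ℕ, ∀ n ≥ n₀, ∀ (D0 r m : ℕ) (E : Finset (Finset (Fin n)))
  (W : Finset (Fin n)) (v : Fin n), RegG D0 r E → 66 / 100 * ((n : ℝ) / Real.log n) ≤ m →
  (m : ℝ) ≤ 125 / 100 * (n / Real.log n) → 91 / 100 * (n : ℝ) ≤ W.card → v ∈ W →
  hs E W m v ≤ hh E W m v + n / Real.log n ^ 3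

/-- as STW -/
def ST_GSTW : Prop := ∃ n₀ : ℕ, ∀ n ≥ n₀, ∀ (D0 r k : ℕ) (E : Finset (Finset (Fin n)))
  (W : Finset (Fin n)), RegG D0 r E → 99 / 100 * (n : ℝ) ≤ W.card →
  665 / 1000 * ((n : ℝ) / Real.log n) ≤ k → (k : ℝ) ≤ 122 / 100 * (n / Real.log n) →
  0 < PP E W (k - 1) ∧ 0 < PP E W k ∧ 0 < PP E W (k + 1) ∧
  (1 + 999 / 1000 * ((W.card : ℝ) / ((k : ℝ) * (k + 1)))) *
    ((PP E W (k - 1) : ℝ) * PP E W (k + 1)) ≤ (PP E W k : ℝ) ^ 2 ∧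
  (PP E W k : ℝ) ^ 2 ≤ Real.exp (1004 / 1000 * (n / (k : ℝ) ^ 2)) *
    ((PP E W (k - 1) : ℝ) * PP E W (k + 1))

/-- as RTI -/
def ST_GRTI : Prop := ∃ n₀ : ℕ, ∀ n ≥ n₀, ∀ (D0 r k : ℕ) (E : Finset (Finset (Fin n)))
  (W W' : Finset (Fin n)), RegG D0 r E → 665 / 1000 * ((n : ℝ) / Real.log n) ≤ k → W ⊆ W' →
  (PP E W k : ℝ) * PP E W' (k - 1) ≤ (PP E W' k : ℝ) * PP E W (k - 1) ∧
  (PP E W' k : ℝ) * PP E W (k - 1) ≤
    Real.exp (2 * ((W' \ W).card : ℝ) / k) * ((PP E W k : ℝ) * PP E W' (k - 1))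

/-- as SHF -/
def ST_GSHF : Prop := ∃ n₀ : ℕ, ∀ n ≥ n₀, ∀ (D0 r k j : ℕ) (E : Finset (Finset (Fin n)))
  (W : Finset (Fin n)), RegG D0 r E → 99 / 100 * (n : ℝ) ≤ W.card →
  67 / 100 * ((n : ℝ) / Real.log n) ≤ k →
  (k : ℝ) ≤ 122 / 100 * (n / Real.log n) → (j : ℝ) ≤ 1 / 1000 * (n / Real.log n) →
  (PP E W k : ℝ) * PP E W (k - j - 1) ≤ (PP E W (k - j) : ℝ) * PP E W (k - 1) ∧
  (PP E W (k - j) : ℝ) * PP E W (k - 1) ≤
    Real.exp (2 * (j : ℝ) * n / (k : ℝ) ^ 2) * ((PP E W k : ℝ) * PP E W (k - j - 1))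

/-- as LMU -/
def ST_GLMU : Prop := ∃ n₀ : ℕ, ∀ n ≥ n₀, ∀ (D0 r m : ℕ) (E : Finset (Finset (Fin n)))
  (W : Finset (Fin n)), RegG D0 r E → 99999 / 100000 * (n : ℝ) ≤ W.card →
  67 / 100 * ((n : ℝ) / Real.log n) ≤ m →
  105 / 100 * (PP E W (m + 1) : ℝ) ≤ (m + 1) * PP E W m →
  98 / 100 * ((n : ℝ) / Real.log n) ≤ m

/-- as DCW -/
def ST_GDCW : Prop := ∃ n₀ : ℕ, ∀ n ≥ n₀, ∀ (D0 r m : ℕ) (E : Finset (Finset (Fin n)))
  (W : Finset (Fin n)), RegG D0 r E → 95 / 100 * (n : ℝ) ≤ W.card →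
  67 / 100 * ((n : ℝ) / Real.log n) ≤ m → (m : ℝ) ≤ 121 / 100 * (n / Real.log n) →
  105 / 100 * (PP E W (m + 1) : ℝ) ≤ (m + 1) * PP E W m →
  AA E W (m + 1) ≤ (m + 1) * AA E W m

/-- as FAW -/
def ST_GFAW : Prop := ∃ n₀ : ℕ, ∀ n ≥ n₀, ∀ (D0 r m : ℕ) (E : Finset (Finset (Fin n)))
  (W : Finset (Fin n)), RegG D0 r E → (119 / 100 * ((n : ℝ) / Real.log n) ≤ m ∨
    (97 / 100 * ((n : ℝ) / Real.log n) ≤ m ∧ (W.card : ℝ) ≤ 951 / 1000 * n)) →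
  AA E W (m + 1) ≤ (m + 1) * AA E W m

/-! ### exceptional vertices -/

/-- as REG -/
def ST_XREG : Prop := ∀ (n D0 r : ℕ) (E : Finset (Finset (Fin n))) (W0 : Finset (Fin n)),
  RegX D0 r E W0 → RegG D0 r (E.filter (fun e => e ⊆ univ \ W0))

/-- Rosenfeld's induction at the good vertices -/
def ST_XF1 : Prop := ∃ n₀ : ℕ, ∀ n ≥ n₀, ∀ (D0 r k : ℕ) (E : Finset (Finset (Fin n)))
  (W0 : Finset (Fin n)), RegX D0 r E W0 → 65 / 100 * ((n : ℝ) / Real.log n) ≤ k →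
  ∀ W T : Finset (Fin n), Disjoint T W0 → Disjoint W T →
    (k - DX n D0 r) ^ T.card * PP E W k ≤ PP E (W ∪ T) k

/-- as TLB -/
def ST_XTLB : Prop := ∀ (n D k L : ℕ) (E : Finset (Finset (Fin n))) (W0 : Finset (Fin n)), Two E →
  (∀ W T : Finset (Fin n), Disjoint T W0 → Disjoint W T →
    (k - D) ^ T.card * PP E W k ≤ PP E (W ∪ T) k) →
  (k - D) ^ L * ∑ Q ∈ (QQ E W0).filter (fun Q => L + W0.card ≤ (un Q).card),
    k.descFactorial Q.card * PP E (univ \ un Q) (k - Q.card) ≤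
      n.choose L * W0.card ^ L * PP E univ k

/-- as TAI -/
def ST_XTAI : Prop := ∃ n₀ : ℕ, ∀ n ≥ n₀, ∀ (D0 r k : ℕ) (E : Finset (Finset (Fin n)))
  (W0 : Finset (Fin n)), RegX D0 r E W0 → 66 / 100 * ((n : ℝ) / Real.log n) ≤ k →
  (n : ℝ) ^ 5 * ∑ Q ∈ (QQ E W0).filter (fun Q => LL n W0 + W0.card ≤ (un Q).card), tt E Q k ≤
    PP E univ k

/-- as PSW -/
def ST_XPSW : Prop := ∃ n₀ : ℕ, ∀ n ≥ n₀, ∀ (D0 r k : ℕ) (E : Finset (Finset (Fin n)))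
  (W0 : Finset (Fin n)), RegX D0 r E W0 → 66 / 100 * ((n : ℝ) / Real.log n) ≤ k →
  0 < PP E univ k

/-- as CMP -/
def ST_XCMP : Prop := ∃ n₀ : ℕ, ∀ n ≥ n₀, ∀ (D0 r k : ℕ) (E : Finset (Finset (Fin n)))
  (W0 : Finset (Fin n)) (Q : Finset (Finset (Fin n))), RegX D0 r E W0 → Q ∈ QQ E W0 →
  (un Q).card < LL n W0 + W0.card →
  67 / 100 * ((n : ℝ) / Real.log n) ≤ k → (k : ℝ) ≤ 121 / 100 * (n / Real.log n) →
  0 < tt E Q (k - 1) ∧ 0 < tt E Q k ∧ 0 < tt E Q (k + 1) ∧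
  (1 + 9988 / 10000 * (n / ((k : ℝ) * (k + 1)))) * (tt E Q (k - 1) * tt E Q (k + 1)) ≤
    tt E Q k ^ 2 ∧
  tt E Q k ^ 2 ≤ Real.exp (10042 / 10000 * (n / (k : ℝ) ^ 2)) *
    (tt E Q (k - 1) * tt E Q (k + 1)) ∧
  (PP E (univ \ W0) k : ℝ) * tt E Q (k - 1) ≤
    Real.exp (1 / 1000 * Real.log n / Real.sqrt n) * (tt E Q k * PP E (univ \ W0) (k - 1)) ∧
  tt E Q k * PP E (univ \ W0) (k - 1) ≤
    Real.exp (1 / 1000 * Real.log n / Real.sqrt n) *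
      ((PP E (univ \ W0) k : ℝ) * tt E Q (k - 1))

/-- as STE -/
def ST_XSTE : Prop := ∃ n₀ : ℕ, ∀ n ≥ n₀, ∀ (D0 r : ℕ) (E : Finset (Finset (Fin n)))
  (W0 : Finset (Fin n)), RegX D0 r E W0 → Wi2 n (fun k => (PP E univ k : ℝ))

/-- as LMW -/
def ST_XLMW : Prop := ∃ n₀ : ℕ, ∀ n ≥ n₀, ∀ (D0 r m : ℕ) (E : Finset (Finset (Fin n)))
  (W0 : Finset (Fin n)), RegX D0 r E W0 →
  67 / 100 * ((n : ℝ) / Real.log n) ≤ m → (m : ℝ) ≤ 1205 / 1000 * (n / Real.log n) →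
  (m + 1) * (PP E (univ \ W0) m : ℝ) ≤ 106 / 100 * PP E (univ \ W0) (m + 1) →
  (m + 1) * (PP E univ m : ℝ) ≤ 109 / 100 * PP E univ (m + 1)

/-- as CDE -/
def ST_XCDE : Prop := ∃ n₀ : ℕ, ∀ n ≥ n₀, ∀ (D0 r m : ℕ) (E : Finset (Finset (Fin n)))
  (W0 : Finset (Fin n)) (Q : Finset (Finset (Fin n))), RegX D0 r E W0 → Q ∈ QQ E W0 →
  (1195 / 1000 * ((n : ℝ) / Real.log n) ≤ m ∨
    (68 / 100 * ((n : ℝ) / Real.log n) ≤ m ∧ (m : ℝ) ≤ 1205 / 1000 * (n / Real.log n) ∧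
      106 / 100 * (PP E (univ \ W0) (m + 1) : ℝ) ≤ (m + 1) * PP E (univ \ W0) m)) →
  AA E (univ \ un Q) (m - Q.card + 1) ≤ (m - Q.card + 1) * AA E (univ \ un Q) (m - Q.card)

/-- as DCE -/
def ST_XDCE : Prop := ∃ n₀ : ℕ, ∀ n ≥ n₀, ∀ (D0 r m : ℕ) (E : Finset (Finset (Fin n)))
  (W0 : Finset (Fin n)), RegX D0 r E W0 →
  (1195 / 1000 * ((n : ℝ) / Real.log n) ≤ m ∨
    (68 / 100 * ((n : ℝ) / Real.log n) ≤ m ∧ (m : ℝ) ≤ 1205 / 1000 * (n / Real.log n) ∧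
      11 / 10 * (PP E univ (m + 1) : ℝ) ≤ (m + 1) * PP E univ m)) →
  AA E univ (m + 1) ≤ (m + 1) * AA E univ m

/-- the main theorem for large `n` -/
def ST_XMA2 : Prop := ∃ n₀ : ℕ, ∀ n ≥ n₀, ∀ (E : Finset (Finset (Fin n))) (W0 : Finset (Fin n)),
  (W0.card : ℝ) ≤ 1 / 100000 * (Real.sqrt n / Real.log n) →
  (∀ v : Fin n, v ∉ W0 →
    ((E.filter (fun e => v ∈ e ∧ (e.card < 4 ∨
      ((e.card : ℝ) < 2000 * Real.log n ∧ (e ∩ W0).Nonempty)))).card : ℝ) ≤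
      1 / 200000 * (n / Real.log n)) →
  (∀ v : Fin n, v ∉ W0 →
    ∑ e ∈ E.filter (fun e => v ∈ e ∧ 4 ≤ e.card ∧ (e.card : ℝ) < 2000 * Real.log n ∧
      Disjoint e W0), (2 * Real.log n / n) ^ (e.card - 2) ≤ 1 / 100000) →
    ∃ k : ℕ, (∀ i j : ℕ, 1 ≤ i → i ≤ j → j ≤ k → Pool.Agent.Helper89.UB.bc E i ≤ Pool.Agent.Helper89.UB.bc E j) ∧
      (∀ i j : ℕ, k ≤ i → i ≤ j → j ≤ n → Pool.Agent.Helper89.UB.bc E j ≤ Pool.Agent.Helper89.UB.bc E i)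

/-- the main theorem -/
def ST_XMAC : Prop := ∃ c C : ℝ, 0 < c ∧ 0 < C ∧ ∀ n : ℕ, 2 ≤ n →
  ∀ (E : Finset (Finset (Fin n))) (W0 : Finset (Fin n)), (∀ e ∈ E, e.Nonempty) →
  (W0.card : ℝ) ≤ c * (Real.sqrt n / Real.log n) →
  (∀ v : Fin n, v ∉ W0 →
    ((E.filter (fun e => v ∈ e ∧ (e.card : ℝ) < C * Real.log n ∧
      (e.card < 4 ∨ (e ∩ W0).Nonempty))).card : ℝ) ≤ c * (n / Real.log n)) →
  (∀ v : Fin n, v ∉ W0 →
    ∑ e ∈ E.filter (fun e => v ∈ e ∧ 4 ≤ e.card ∧ (e.card : ℝ) < C * Real.log n ∧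
      Disjoint e W0), (C * Real.log n / n) ^ (e.card - 2) ≤ c) →
    ∃ k : ℕ, (∀ i j : ℕ, 1 ≤ i → i ≤ j → j ≤ k → Pool.Agent.Helper89.UB.bc E i ≤ Pool.Agent.Helper89.UB.bc E j) ∧
      (∀ i j : ℕ, k ≤ i → i ≤ j → j ≤ n → Pool.Agent.Helper89.UB.bc E j ≤ Pool.Agent.Helper89.UB.bc E i)

end Pool.Agent.Helper5.WD
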