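import Pool.Agent.Helper5.FV.All
import Pool.Agent.Helper99.WD.GBGC
import Pool.Agent.Helper1.WD.GBL3
import Pool.Agent.Helper70.WD.GCHN
import Pool.Agent.Helper80.WD.GDCW
import Pool.Agent.Helper32.WD.GEXM
import Pool.Agent.Helper74.WD.GF1
import Pool.Agent.Helper88.WD.GFAW
import Pool.Agent.Helper4.WD.GH1
import Pool.Agent.Helper81.WD.GH2
import Pool.Agent.Helper25.WD.GHDF
import Pool.Agent.Helper58.WD.GHSF
import Pool.Agent.Helper67.WD.GLMU
import Pool.Agent.Helper39.WD.GMON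
import Pool.Agent.Helper28.WD.GMS
import Pool.Agent.Helper62.WD.GNUM
import Pool.Agent.Helper89.WD.GPOS
import Pool.Agent.Helper45.WD.GPTW
import Pool.Agent.Helper51.WD.GRAT
import Pool.Agent.Helper44.WD.GRGM
import Pool.Agent.Helper24.WD.GRTI
import Pool.Agent.Helper76.WD.GRW
import Pool.Agent.Helper34.WD.GSHF
import Pool.Agent.Helper40.WD.GSNG
import Pool.Agent.Helper52.WD.GSTW
import Pool.Agent.Helper22.WD.XCDE
import Pool.Agent.Helper46.WD.XCMP
import Pool.Agent.Helper92.WD.XDCE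
import Pool.Agent.Helper41.WD.XF1
import Pool.Agent.Helper92.WD.XLMW
import Pool.Agent.Helper79.WD.XMA2
import Pool.Agent.Helper14.WD.XMAC
import Pool.Agent.Helper60.WD.XPSW
import Pool.Agent.Helper80.WD.XREG
import Pool.Agent.Helper12.WD.XSTE
import Pool.Agent.Helper73.WD.XTAI
import Pool.Agent.Helper13.WD.XTLB
import Pool.Agent.Helper5.WD.Final

/-! # WD: assembly -/

set_option autoImplicit false

namespace Pool.Agent.Helper5.WD

open Pool.Agent.Helper8.UN Pool.Agent.Helper89 Pool.Agent.Helper5.FV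

theorem all_GRW : ST_GRW := st_GRW all_CNT
theorem all_GF1 : ST_GF1 := st_GF1 all_CNT
theorem all_GEXM : ST_GEXM := st_GEXM all_GF1 st_F2
theorem all_GBGC : ST_GBGC := st_GBGC all_GF1
theorem all_GMS : ST_GMS := st_GMS all_GF1
theorem all_GBL3 : ST_GBL3 := st_GBL3 all_GMS all_GBGC
theorem all_GPOS : ST_GPOS := st_GPOS all_GF1 st_F2
theorem all_GRAT : ST_GRAT := st_GRAT all_CNT all_GPOS
theorem all_GCHN : ST_GCHN := st_GCHN all_GRAT
theorem all_GPTW : ST_GPTW := st_GPTW st_UPC all_UPS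
theorem all_GH1 : ST_GH1 := st_GH1 all_SWP all_GPTW
theorem all_GH2 : ST_GH2 := st_GH2 all_SWP all_GPTW
theorem all_GRGM : ST_GRGM := st_GRGM all_GRW all_GBL3 st_GNUM
theorem all_GHDF : ST_GHDF := st_GHDF all_GH1 st_BKC all_GRGM all_GPOS
theorem all_GSNG : ST_GSNG := st_GSNG all_QSW
theorem all_GHSF : ST_GHSF := st_GHSF all_GH2 st_BKC all_GRGM all_GSNG all_GPOS
theorem all_GSTW : ST_GSTW := st_GSTW all_GHDF all_GRAT all_GEXM all_SYM st_F2 all_GPOS all_GRGM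
theorem all_GRTI : ST_GRTI := st_GRTI all_GRAT all_GHDF all_GPOS all_GRGM
theorem all_GSHF : ST_GSHF := st_GSHF all_GSTW
theorem all_GLMU : ST_GLMU := st_GLMU all_GRAT all_GHDF all_GPOS all_GRGM
theorem all_GDCW : ST_GDCW := st_GDCW all_GHSF all_GCHN all_GRAT all_GF1 st_F2 all_GPOS all_GRGM
theorem all_GFAW : ST_GFAW := st_GFAW all_GF1 st_F2 all_GPOS all_GRGM
theorem all_XF1 : ST_XF1 := st_XF1 all_CNT st_GNUM
theorem all_XTLB : ST_XTLB := st_XTLB st_CLS st_FBC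
theorem all_XTAI : ST_XTAI := st_XTAI all_XTLB all_XF1 st_GNUM
theorem all_XPSW : ST_XPSW := st_XPSW all_XF1 st_GNUM
theorem all_XCMP : ST_XCMP := st_XCMP st_SUB st_XREG st_QQC all_GSTW all_GRTI all_GSHF
theorem all_XSTE : ST_XSTE := st_XSTE all_XTAI all_DEC all_XCMP st_MIX all_XPSW st_QQC
theorem all_XLMW : ST_XLMW := st_XLMW all_DEC all_XTAI all_XCMP all_XPSW
theorem all_XCDE : ST_XCDE := st_XCDE st_SUB st_XREG st_QQC all_GRTI all_GSHF all_GLMU all_GDCW
  all_GFAW all_GSTW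
theorem all_XDCE : ST_XDCE := st_XDCE all_DEC st_QQC all_XCDE all_XLMW all_XPSW
theorem all_XMA2 : ST_XMA2 := st_XMA2 UB.st_LNK (UB.st_INIT UB.st_MRG UB.st_AMG) UB.st_UNI st_LNA
  all_XSTE st_BON all_WM1 all_WMC all_XDCE st_ININ
theorem all_XMAC : ST_XMAC := st_XMAC all_XMA2 st_STI
theorem all_WFIN : ST_WFIN := st_WFIN all_XMAC all_EDS

end Pool.Agent.Helper5.WD
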