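import Pool.Agent.Helper5.FV.All

set_option autoImplicit false

open Finset

namespace Pool.Agent.Helper5.WD.FewLargeDegreesOld

/-- There are `c > 0` and `C > 0` such that for every `n ≥ 2` and every hypergraph `E` on `n`
vertices (edges are nonempty sets) the numbers `b m` of partitions of the vertices into `m`
nonempty blocks without edges form a unimodal sequence, if (1) outside a set `W0` of at most
`c √n / log n` vertices every vertex lies in at most `c n / log n` edges with fewer than `C log n`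
vertices, or (2) the edges with fewer than `C log n` vertices have total size (sum of their
cardinalities) at most `c n √n / (log n) ^ 2`. All other edges are arbitrary. -/
theorem result :
    ∃ c C : ℝ, 0 < c ∧ 0 < C ∧ ∀ n : ℕ, 2 ≤ n → ∀ (E : Finset (Finset (Fin n))) (b : ℕ → ℕ),
      (∀ e ∈ E, e.Nonempty) →
      (∀ m : ℕ, b m = Set.ncard {P : Finset (Finset (Fin n)) |
          P.card = m ∧
          (∀ B ∈ P, B.Nonempty) ∧
          (∀ B ∈ P, ∀ C ∈ P, B ≠ C → Disjoint B C) ∧
          (∀ v : Fin n, ∃ B ∈ P, v ∈ B) ∧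
          (∀ B ∈ P, ∀ e ∈ E, ¬ e ⊆ B)}) →
      ((∃ W0 : Finset (Fin n), (W0.card : ℝ) ≤ c * (Real.sqrt n / Real.log n) ∧
          ∀ v : Fin n, v ∉ W0 →
            ((E.filter (fun e => v ∈ e ∧ (e.card : ℝ) < C * Real.log n)).card : ℝ) ≤
              c * (n / Real.log n)) ∨
        ∑ e ∈ E.filter (fun e => (e.card : ℝ) < C * Real.log n), (e.card : ℝ) ≤
          c * ((n : ℝ) * Real.sqrt n / Real.log n ^ 2)) →
      ∃ k : ℕ,
        (∀ i j : ℕ, 1 ≤ i → i ≤ j → j ≤ k → b i ≤ b j) ∧
        (∀ i j : ℕ, k ≤ i → i ≤ j → j ≤ n → b j ≤ b i) :=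
  Pool.Agent.Helper5.FV.all_FINAL

end Pool.Agent.Helper5.WD.FewLargeDegreesOld
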